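import Pool.Agent.J6H7.BD.Roots

set_option autoImplicit false
set_option linter.unusedSectionVars false
set_option linter.unusedVariables false

/-! # Block diagonal matrices: the blocks -/

namespace Pool.Agent.J6H7.BD

open MvPowerSeries Pool.Agent.W574.SM Pool.Agent.TH192.DT

/-- the entries at the places of the same variable agree -/
def Compat {X Y σ S : Type} (ix : X → Y → σ) (N : Matrix X Y S) : Prop :=
  ∀ x y x' y', ix x y = ix x' y' → N x y = N x' y'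

/-- the data of a block -/
structure Gb (A T1 T2 Q σ : Type) [Fintype A] [DecidableEq A] where
  ix : A ⊕ T1 → A ⊕ T2 → σ
  u : Q → T1
  w : Q → T2
  u_inj : Function.Injective u
  w_inj : Function.Injective w
  surj : ∀ t, ∃ x y, t = ix x y
  exc : ∀ r c x y, ix (Sum.inr r) (Sum.inr c) = ix x y →
    (∃ r', x = Sum.inr r') ∧ (∃ c', y = Sum.inr c')
  dg : ∀ q x y, ix (Sum.inr (u q)) (Sum.inr (w q)) = ix x y →
    x = Sum.inr (u q) ∧ y = Sum.inr (w q)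
  dgA : ∀ a x y, ix (Sum.inl a) (Sum.inl a) = ix x y → x = Sum.inl a ∧ y = Sum.inl a
  chart : ∀ (S : Type) [CommRing S] (N : Matrix (A ⊕ T1) (A ⊕ T2) S) (z : S), Compat ix N →
    Compat ix (Matrix.fromBlocks N.toBlocks₁₁ N.toBlocks₁₂ N.toBlocks₂₁
      (N.toBlocks₂₁ * N.toBlocks₁₁⁻¹ * N.toBlocks₁₂ + z • N.toBlocks₂₂))

section Sig

variable {B : Type} [DecidableEq B] {X Y σ : B → Type}

/-- the index of the variable at a place: `junk` outside of the blocks -/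
def ixS (f : ∀ b, X b → Y b → σ b) (junk : Σ b, σ b) (x : Σ b, X b) (y : Σ b, Y b) : Σ b, σ b :=
  if h : x.1 = y.1 then ⟨y.1, f y.1 (h ▸ x.2) y.2⟩ else junk

theorem ixS_same (f : ∀ b, X b → Y b → σ b) (junk : Σ b, σ b) (b : B) (x : X b) (y : Y b) :
    ixS f junk ⟨b, x⟩ ⟨b, y⟩ = ⟨b, f b x y⟩ := dif_pos rfl

end Sig

section Total

variable {B : Type} [Fintype B] [DecidableEq B] {A T1 T2 Q σ : B → Type}
  [∀ b, Fintype (A b)] [∀ b, DecidableEq (A b)] [∀ b, Fintype (T1 b)] [∀ b, DecidableEq (T1 b)]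
  [∀ b, Fintype (T2 b)] [∀ b, DecidableEq (T2 b)] [∀ b, Fintype (Q b)] [∀ b, DecidableEq (Q b)]
  [∀ b, Fintype (σ b)] [∀ b, DecidableEq (σ b)] (G : ∀ b, Gb (A b) (T1 b) (T2 b) (Q b) (σ b))
  (z : Σ b, Q b)

/-- the rows, or the columns, of the whole matrix -/
abbrev cb (A T : B → Type) : (Σ b, A b) ⊕ (Σ b, T b) ≃ Σ b, (A b ⊕ T b) :=
  (Equiv.sigmaSumDistrib A T).symm

/-- the data of the block diagonal matrix -/
def tot : Bm (Σ b, A b) (Σ b, T1 b) (Σ b, T2 b) (Σ b, Q b) (Σ b, σ b) where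
  ix := fun x y => ixS (fun b => (G b).ix)
    ⟨z.1, (G z.1).ix (Sum.inr ((G z.1).u z.2)) (Sum.inr ((G z.1).w z.2))⟩
    (cb A T1 x) (cb A T2 y)
  on := fun x y => (cb A T1 x).1 = (cb A T2 y).1
  u := fun q => ⟨q.1, (G q.1).u q.2⟩
  w := fun q => ⟨q.1, (G q.1).w q.2⟩
  u_inj := by
    rintro ⟨b, q⟩ ⟨b', q'⟩ h
    simp only [Sigma.mk.injEq] at h
    obtain ⟨rfl, h⟩ := h
    rw [(G b).u_inj (eq_of_heq h)]
  w_inj := by
    rintro ⟨b, q⟩ ⟨b', q'⟩ h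
    simp only [Sigma.mk.injEq] at h
    obtain ⟨rfl, h⟩ := h
    rw [(G b).w_inj (eq_of_heq h)]
  surj := by
    rintro ⟨b, t⟩
    obtain ⟨x, y, h⟩ := (G b).surj t
    refine ⟨(cb A T1).symm ⟨b, x⟩, (cb A T2).symm ⟨b, y⟩, ?_, ?_⟩
    · rw [Equiv.apply_symm_apply, Equiv.apply_symm_apply]
    · rw [Equiv.apply_symm_apply, Equiv.apply_symm_apply, ixS_same, h]
  exc := by
    rintro ⟨b, r⟩ ⟨b', c⟩ x y h1 h2 h
    obtain ⟨⟨b1, x⟩, rfl⟩ := (cb A T1).symm.surjective x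
    obtain ⟨⟨b2, y⟩, rfl⟩ := (cb A T2).symm.surjective y
    rw [Equiv.apply_symm_apply, Equiv.apply_symm_apply] at h h2
    change b = b' at h1
    change b1 = b2 at h2
    subst h1 h2
    change ixS _ _ (⟨b, Sum.inr r⟩ : Σ b, (A b ⊕ T1 b)) (⟨b, Sum.inr c⟩ : Σ b, (A b ⊕ T2 b)) = _
      at h
    rw [ixS_same, ixS_same, Sigma.mk.injEq] at h
    obtain ⟨rfl, h⟩ := h
    obtain ⟨⟨r', rfl⟩, ⟨c', rfl⟩⟩ := (G b).exc r c x y (eq_of_heq h)
    exact ⟨⟨⟨b, r'⟩, rfl⟩, ⟨⟨b, c'⟩, rfl⟩⟩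
  dg := by
    rintro ⟨b, q⟩ x y h2 h
    obtain ⟨⟨b1, x⟩, rfl⟩ := (cb A T1).symm.surjective x
    obtain ⟨⟨b2, y⟩, rfl⟩ := (cb A T2).symm.surjective y
    rw [Equiv.apply_symm_apply, Equiv.apply_symm_apply] at h h2
    change b1 = b2 at h2
    subst h2
    change ixS _ _ (⟨b, Sum.inr ((G b).u q)⟩ : Σ b, (A b ⊕ T1 b))
      (⟨b, Sum.inr ((G b).w q)⟩ : Σ b, (A b ⊕ T2 b)) = _ at h
    rw [ixS_same, ixS_same, Sigma.mk.injEq] at h
    obtain ⟨rfl, h⟩ := h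
    obtain ⟨rfl, rfl⟩ := (G b).dg q x y (eq_of_heq h)
    exact ⟨rfl, rfl⟩
  on_Q := fun q => rfl
  z := z

theorem tot_ix (b : B) (x : A b ⊕ T1 b) (y : A b ⊕ T2 b) :
    (tot G z).ix ((cb A T1).symm ⟨b, x⟩) ((cb A T2).symm ⟨b, y⟩) = ⟨b, (G b).ix x y⟩ := by
  refine Eq.trans (b := ixS (fun b => (G b).ix)
    ⟨z.1, (G z.1).ix (Sum.inr ((G z.1).u z.2)) (Sum.inr ((G z.1).w z.2))⟩
    (cb A T1 ((cb A T1).symm ⟨b, x⟩)) (cb A T2 ((cb A T2).symm ⟨b, y⟩))) rfl ?_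
  rw [Equiv.apply_symm_apply, Equiv.apply_symm_apply, ixS_same]

theorem tot_on (b b' : B) (x : A b ⊕ T1 b) (y : A b' ⊕ T2 b') :
    (tot G z).on ((cb A T1).symm ⟨b, x⟩) ((cb A T2).symm ⟨b', y⟩) ↔ b = b' := by
  change (cb A T1 ((cb A T1).symm ⟨b, x⟩)).1 = (cb A T2 ((cb A T2).symm ⟨b', y⟩)).1 ↔ _
  rw [Equiv.apply_symm_apply, Equiv.apply_symm_apply]

theorem card_exc : Nat.card {t // ∃ r c, (tot G z).on (Sum.inr r) (Sum.inr c) ∧
      t = (tot G z).ix (Sum.inr r) (Sum.inr c)}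
    = ∑ b, Nat.card {t // ∃ r c, t = (G b).ix (Sum.inr r) (Sum.inr c)} := by
  classical
  rw [← Nat.card_sigma]
  symm
  refine Nat.card_eq_of_bijective (fun q => ⟨⟨q.1, q.2.1⟩, ?_⟩) ⟨?_, ?_⟩
  · obtain ⟨b, t, r, c, h⟩ := q
    refine ⟨⟨b, r⟩, ⟨b, c⟩, rfl, ?_⟩
    have h1 := tot_ix G z b (Sum.inr r) (Sum.inr c)
    exact (congrArg (Sigma.mk b) h).trans h1.symm
  · rintro ⟨b, t, ht⟩ ⟨b', t', ht'⟩ h
    simp only [Subtype.mk.injEq, Sigma.mk.injEq] at h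
    obtain ⟨rfl, h⟩ := h
    obtain rfl := eq_of_heq h
    rfl
  · rintro ⟨⟨b, t⟩, ⟨b1, r⟩, ⟨b2, c⟩, h1, h⟩
    change b1 = b2 at h1
    subst h1
    have h2 := tot_ix G z b1 (Sum.inr r) (Sum.inr c)
    change (tot G z).ix (Sum.inr ⟨b1, r⟩) (Sum.inr ⟨b1, c⟩) = _ at h2
    have h3 := h.trans h2
    rw [Sigma.mk.injEq] at h3
    obtain ⟨rfl, h3⟩ := h3
    exact ⟨⟨b, ⟨t, r, c, eq_of_heq h3⟩⟩, rfl⟩

variable (lam : ℂ) (hlam : lam ≠ 0)

/-- the blocks of the matrix in the chart -/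
noncomputable def bA (b : B) : Matrix (A b) (A b) (MvPowerSeries (Σ b, σ b) ℂ) :=
  (lam • (1 : Matrix (A b) (A b) ℂ)).map MvPowerSeries.C +
    Matrix.of fun a a' => X ⟨b, (G b).ix (Sum.inl a) (Sum.inl a')⟩

noncomputable def bB (b : B) : Matrix (A b) (T2 b) (MvPowerSeries (Σ b, σ b) ℂ) :=
  Matrix.of fun a c => X ⟨b, (G b).ix (Sum.inl a) (Sum.inr c)⟩

noncomputable def bC (b : B) : Matrix (T1 b) (A b) (MvPowerSeries (Σ b, σ b) ℂ) :=
  Matrix.of fun r a => X ⟨b, (G b).ix (Sum.inr r) (Sum.inl a)⟩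

open Classical in
noncomputable def bY (b : B) : Matrix (T1 b) (T2 b) (MvPowerSeries (Σ b, σ b) ℂ) :=
  Matrix.of fun r c =>
    MvPowerSeries.C (if ∃ q, r = (G b).u q ∧ c = (G b).w q then (1 : ℂ) else 0) +
    if (⟨b, (G b).ix (Sum.inr r) (Sum.inr c)⟩ : Σ b, σ b) = ((tot G z).D lam hlam).z then 0
      else X ⟨b, (G b).ix (Sum.inr r) (Sum.inr c)⟩

/-- the matrix of the data of a block in the chart -/
noncomputable def bN (b : B) : Matrix (A b ⊕ T1 b) (A b ⊕ T2 b) (MvPowerSeries (Σ b, σ b) ℂ) :=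
  Matrix.fromBlocks (bA G lam b) (bB G b) (bC G b) (bY G z lam hlam b)

noncomputable def bX (b : B) : Matrix (A b ⊕ T1 b) (A b ⊕ T2 b) (MvPowerSeries (Σ b, σ b) ℂ) :=
  Matrix.fromBlocks (bA G lam b) (bB G b) (bC G b)
    (bC G b * (bA G lam b)⁻¹ * bB G b +
      (X ((tot G z).D lam hlam).z : MvPowerSeries (Σ b, σ b) ℂ) • bY G z lam hlam b)

theorem compat_bN (b : B) : Compat (G b).ix (bN G z lam hlam b) := by
  classical
  have key : ∀ x y, bN G z lam hlam b x y = MvPowerSeries.C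
      (Matrix.fromBlocks (lam • (1 : Matrix (A b) (A b) ℂ)) 0 0
        (Matrix.of fun r c => if ∃ q, r = (G b).u q ∧ c = (G b).w q then (1 : ℂ) else 0) x y) +
      if (⟨b, (G b).ix x y⟩ : Σ b, σ b) = ((tot G z).D lam hlam).z then 0
        else X ⟨b, (G b).ix x y⟩ := by
    have hz : ∀ x y, (⟨b, (G b).ix x y⟩ : Σ b, σ b) = ((tot G z).D lam hlam).z →
        (∃ r', x = Sum.inr r') ∧ (∃ c', y = Sum.inr c') := by
      intro x y h
      have h1 : ((tot G z).D lam hlam).z = ⟨z.1, (G z.1).ix (Sum.inr ((G z.1).u z.2))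
        (Sum.inr ((G z.1).w z.2))⟩ := by
        rw [Bm.D_z]
        exact tot_ix G z z.1 (Sum.inr ((G z.1).u z.2)) (Sum.inr ((G z.1).w z.2))
      rw [h1, Sigma.mk.injEq] at h
      obtain ⟨rfl, h⟩ := h
      exact (G z.1).exc _ _ _ _ (eq_of_heq h).symm
    intro x y
    rcases x with a | r <;> rcases y with a' | c
    · rw [if_neg fun h => by obtain ⟨⟨r, hr⟩, _⟩ := hz _ _ h; simp at hr]
      rfl
    · rw [if_neg fun h => by obtain ⟨⟨r, hr⟩, _⟩ := hz _ _ h; simp at hr]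
      rw [Matrix.fromBlocks_apply₁₂, Matrix.zero_apply, map_zero, zero_add]
      rfl
    · rw [if_neg fun h => by obtain ⟨_, ⟨r, hr⟩⟩ := hz _ _ h; simp at hr]
      rw [Matrix.fromBlocks_apply₂₁, Matrix.zero_apply, map_zero, zero_add]
      rfl
    · rfl
  intro x y x' y' h
  rw [key, key, h]
  congr 2
  -- the base point is compatible
  have hA : ∀ a x' y', (G b).ix (Sum.inl a) (Sum.inl a) = (G b).ix x' y' →
      x' = Sum.inl a ∧ y' = Sum.inl a := (G b).dgA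
  have hval : ∀ x y, Matrix.fromBlocks (lam • (1 : Matrix (A b) (A b) ℂ)) 0 0
        (Matrix.of fun r c => if ∃ q, r = (G b).u q ∧ c = (G b).w q then (1 : ℂ) else 0) x y
      = (if ∃ a, x = Sum.inl a ∧ y = Sum.inl a then lam else 0) +
        (if ∃ q, x = Sum.inr ((G b).u q) ∧ y = Sum.inr ((G b).w q) then 1 else 0) := by
    intro x y
    rcases x with a | r <;> rcases y with a' | c
    · by_cases h : a = a'
      · subst h; simp
      · rw [Matrix.fromBlocks_apply₁₁, Matrix.smul_apply, Matrix.one_apply_ne h, smul_zero]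
        simp [Ne.symm h]
    · simp
    · simp
    · simp
  rw [hval, hval]
  congr 1
  · congr 1
    apply propext
    constructor
    · rintro ⟨a, rfl, rfl⟩
      exact ⟨a, (G b).dgA a x' y' h⟩
    · rintro ⟨a, rfl, rfl⟩
      exact ⟨a, (G b).dgA a x y h.symm⟩
  · congr 1
    apply propext
    constructor
    · rintro ⟨q, rfl, rfl⟩
      exact ⟨q, (G b).dg q x' y' h⟩
    · rintro ⟨q, rfl, rfl⟩
      exact ⟨q, (G b).dg q x y h.symm⟩

theorem compat_bX (b : B) : Compat (G b).ix (bX G z lam hlam b) :=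
  (G b).chart _ (bN G z lam hlam b) (X ((tot G z).D lam hlam).z) (compat_bN G z lam hlam b)

end Total

end Pool.Agent.J6H7.BD
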