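import Pool.Agent.J6H7.BD.Blocks

set_option autoImplicit false
set_option linter.unusedSectionVars false
set_option linter.unusedVariables false

/-! # Block diagonal matrices: the charts exist -/

namespace Pool.Agent.J6H7.BD

open MvPowerSeries Pool.Agent.W574.SM Pool.Agent.TH192.DT

section Total

variable {B : Type} [Fintype B] [DecidableEq B] {A T1 T2 Q σ : B → Type}
  [∀ b, Fintype (A b)] [∀ b, DecidableEq (A b)] [∀ b, Fintype (T1 b)] [∀ b, DecidableEq (T1 b)]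
  [∀ b, Fintype (T2 b)] [∀ b, DecidableEq (T2 b)] [∀ b, Fintype (Q b)] [∀ b, DecidableEq (Q b)]
  [∀ b, Fintype (σ b)] [∀ b, DecidableEq (σ b)] (G : ∀ b, Gb (A b) (T1 b) (T2 b) (Q b) (σ b))
  (z : Σ b, Q b) (lam : ℂ) (hlam : lam ≠ 0)

theorem v_same (b : B) (x : A b ⊕ T1 b) (y : A b ⊕ T2 b) :
    ((tot G z).D lam hlam).v ((cb A T1).symm ⟨b, x⟩) ((cb A T2).symm ⟨b, y⟩)
      = X ⟨b, (G b).ix x y⟩ := by
  classical
  rw [Mt.v]
  have h1 : ((tot G z).D lam hlam).sg ((cb A T1).symm ⟨b, x⟩) ((cb A T2).symm ⟨b, y⟩) = 1 :=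
    if_pos ((tot_on G z b b x y).2 rfl)
  have h2 : ((tot G z).D lam hlam).ix ((cb A T1).symm ⟨b, x⟩) ((cb A T2).symm ⟨b, y⟩)
    = ⟨b, (G b).ix x y⟩ := tot_ix G z b x y
  rw [h1, h2, map_one, one_mul]

theorem v_diff {b b' : B} (h : b ≠ b') (x : A b ⊕ T1 b) (y : A b' ⊕ T2 b') :
    ((tot G z).D lam hlam).v ((cb A T1).symm ⟨b, x⟩) ((cb A T2).symm ⟨b', y⟩) = 0 := by
  classical
  rw [Mt.v]
  have h1 : ((tot G z).D lam hlam).sg ((cb A T1).symm ⟨b, x⟩) ((cb A T2).symm ⟨b', y⟩) = 0 :=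
    if_neg fun h' => h ((tot_on G z b b' x y).1 h')
  rw [h1, map_zero, zero_mul]

theorem mA_eq : ((tot G z).D lam hlam).mA = Matrix.blockDiagonal' (bA G lam) := by
  classical
  ext1 ⟨b, x⟩ ⟨b', y⟩
  rw [Mt.mA, Matrix.add_apply, Matrix.map_apply, Matrix.of_apply]
  by_cases h : b = b'
  · subst h
    rw [Matrix.blockDiagonal'_apply_eq, bA, Matrix.add_apply, Matrix.map_apply, Matrix.of_apply]
    congr 1
    · change MvPowerSeries.C ((lam • (1 : Matrix (Σ b, A b) (Σ b, A b) ℂ)) ⟨b, x⟩ ⟨b, y⟩) = _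
      rw [Matrix.smul_apply, Matrix.smul_apply, Matrix.one_apply, Matrix.one_apply]
      simp only [Sigma.mk.injEq, heq_eq_eq, true_and]
    · exact v_same G z lam hlam b (Sum.inl x) (Sum.inl y)
  · rw [Matrix.blockDiagonal'_apply_ne _ _ _ h]
    have h1 := v_diff G z lam hlam h (Sum.inl x) (Sum.inl y)
    change MvPowerSeries.C ((lam • (1 : Matrix (Σ b, A b) (Σ b, A b) ℂ)) ⟨b, x⟩ ⟨b', y⟩) +
      ((tot G z).D lam hlam).v ((cb A T1).symm ⟨b, Sum.inl x⟩)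
        ((cb A T2).symm ⟨b', Sum.inl y⟩) = 0
    rw [h1, add_zero, Matrix.smul_apply, Matrix.one_apply_ne, smul_zero, map_zero]
    intro h2
    exact h (congrArg Sigma.fst h2)

theorem mB_eq : ((tot G z).D lam hlam).mB = Matrix.blockDiagonal' (bB G) := by
  ext1 ⟨b, x⟩ ⟨b', y⟩
  by_cases h : b = b'
  · subst h
    rw [Matrix.blockDiagonal'_apply_eq]
    exact v_same G z lam hlam b (Sum.inl x) (Sum.inr y)
  · rw [Matrix.blockDiagonal'_apply_ne _ _ _ h]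
    exact v_diff G z lam hlam h (Sum.inl x) (Sum.inr y)

theorem mC_eq : ((tot G z).D lam hlam).mC = Matrix.blockDiagonal' (bC G) := by
  ext1 ⟨b, x⟩ ⟨b', y⟩
  by_cases h : b = b'
  · subst h
    rw [Matrix.blockDiagonal'_apply_eq]
    exact v_same G z lam hlam b (Sum.inr x) (Sum.inl y)
  · rw [Matrix.blockDiagonal'_apply_ne _ _ _ h]
    exact v_diff G z lam hlam h (Sum.inr x) (Sum.inl y)

theorem mY_eq : ((tot G z).D lam hlam).mY = Matrix.blockDiagonal' (bY G z lam hlam) := by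
  classical
  ext1 ⟨b, x⟩ ⟨b', y⟩
  rw [Mt.mY, Matrix.of_apply]
  by_cases h : b = b'
  · subst h
    rw [Matrix.blockDiagonal'_apply_eq, bY, Matrix.of_apply]
    have h1 : ((tot G z).D lam hlam).ix (Sum.inr ⟨b, x⟩) (Sum.inr ⟨b, y⟩)
      = ⟨b, (G b).ix (Sum.inr x) (Sum.inr y)⟩ := tot_ix G z b (Sum.inr x) (Sum.inr y)
    have h2 : ((tot G z).D lam hlam).v (Sum.inr ⟨b, x⟩) (Sum.inr ⟨b, y⟩)
      = X ⟨b, (G b).ix (Sum.inr x) (Sum.inr y)⟩ := v_same G z lam hlam b (Sum.inr x) (Sum.inr y)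
    rw [h1, h2]
    congr 2
    change (tot G z).y0 ⟨b, x⟩ ⟨b, y⟩ = _
    rw [Bm.y0]
    congr 1
    apply propext
    constructor
    · rintro ⟨⟨b', q⟩, h3, h4⟩
      change (⟨b, x⟩ : Σ b, T1 b) = ⟨b', (G b').u q⟩ at h3
      change (⟨b, y⟩ : Σ b, T2 b) = ⟨b', (G b').w q⟩ at h4
      rw [Sigma.mk.injEq] at h3 h4
      obtain ⟨rfl, h3⟩ := h3
      exact ⟨q, eq_of_heq h3, eq_of_heq h4.2⟩
    · rintro ⟨q, h3, h4⟩
      exact ⟨⟨b, q⟩, congrArg (Sigma.mk b) h3, congrArg (Sigma.mk b) h4⟩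
  · rw [Matrix.blockDiagonal'_apply_ne _ _ _ h]
    have h2 : ((tot G z).D lam hlam).v (Sum.inr ⟨b, x⟩) (Sum.inr ⟨b', y⟩) = 0 :=
      v_diff G z lam hlam h (Sum.inr x) (Sum.inr y)
    have h3 : ((tot G z).D lam hlam).Y0 ⟨b, x⟩ ⟨b', y⟩ = 0 := by
      change (tot G z).y0 ⟨b, x⟩ ⟨b', y⟩ = 0
      rw [Bm.y0, if_neg]
      rintro ⟨⟨b1, q⟩, h3, h4⟩
      change (⟨b, x⟩ : Σ b, T1 b) = ⟨b1, (G b1).u q⟩ at h3
      change (⟨b', y⟩ : Σ b, T2 b) = ⟨b1, (G b1).w q⟩ at h4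
      exact h ((congrArg Sigma.fst h3).trans (congrArg Sigma.fst h4).symm)
    rw [h2, h3, map_zero, ite_self, add_zero]

theorem bA_unit (b : B) (hlam : lam ≠ 0) : IsUnit (bA G lam b).det := by
  rw [MvPowerSeries.isUnit_iff_constantCoeff, RingHom.map_det]
  have h1 : (constantCoeff : MvPowerSeries (Σ b, σ b) ℂ →+* ℂ).mapMatrix (bA G lam b)
      = lam • (1 : Matrix (A b) (A b) ℂ) := by
    ext i j
    simp [bA]
  rw [h1, Matrix.det_smul, Matrix.det_one, mul_one]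
  exact (isUnit_iff_ne_zero.2 hlam).pow _

theorem mAinv_eq : (((tot G z).D lam hlam).mA)⁻¹
    = Matrix.blockDiagonal' fun b => (bA G lam b)⁻¹ := by
  apply Matrix.inv_eq_right_inv
  rw [mA_eq, ← Matrix.blockDiagonal'_mul]
  have h1 : (fun b => bA G lam b * (bA G lam b)⁻¹)
      = fun b => (1 : Matrix (A b) (A b) (MvPowerSeries (Σ b, σ b) ℂ)) := by
    funext b
    exact Matrix.mul_nonsing_inv _ (bA_unit G lam b hlam)
  rw [h1]
  exact Matrix.blockDiagonal'_one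

theorem mX_block (b : B) (x : A b ⊕ T1 b) (y : A b ⊕ T2 b) :
    ((tot G z).D lam hlam).mX ((cb A T1).symm ⟨b, x⟩) ((cb A T2).symm ⟨b, y⟩)
      = bX G z lam hlam b x y := by
  have h1 : ((tot G z).D lam hlam).mC * ((tot G z).D lam hlam).mA⁻¹ * ((tot G z).D lam hlam).mB
      = Matrix.blockDiagonal' fun b => bC G b * (bA G lam b)⁻¹ * bB G b := by
    rw [mAinv_eq, mB_eq, mC_eq, ← Matrix.blockDiagonal'_mul, ← Matrix.blockDiagonal'_mul]
  rw [Mt.mX, h1, mA_eq, mB_eq, mC_eq, mY_eq]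
  rcases x with x | x <;> rcases y with y | y
  · exact Matrix.blockDiagonal'_apply_eq _ _ _ _
  · exact Matrix.blockDiagonal'_apply_eq _ _ _ _
  · exact Matrix.blockDiagonal'_apply_eq _ _ _ _
  · change (Matrix.blockDiagonal' fun b => bC G b * (bA G lam b)⁻¹ * bB G b) ⟨b, x⟩ ⟨b, y⟩ +
      X _ * (Matrix.blockDiagonal' (bY G z lam hlam)) ⟨b, x⟩ ⟨b, y⟩ = _
    rw [Matrix.blockDiagonal'_apply_eq, Matrix.blockDiagonal'_apply_eq]
    rfl

theorem mX_off {b b' : B} (h : b ≠ b') (x : A b ⊕ T1 b) (y : A b' ⊕ T2 b') :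
    ((tot G z).D lam hlam).mX ((cb A T1).symm ⟨b, x⟩) ((cb A T2).symm ⟨b', y⟩) = 0 := by
  have h1 : ((tot G z).D lam hlam).mC * ((tot G z).D lam hlam).mA⁻¹ * ((tot G z).D lam hlam).mB
      = Matrix.blockDiagonal' fun b => bC G b * (bA G lam b)⁻¹ * bB G b := by
    rw [mAinv_eq, mB_eq, mC_eq, ← Matrix.blockDiagonal'_mul, ← Matrix.blockDiagonal'_mul]
  rw [Mt.mX, h1, mA_eq, mB_eq, mC_eq, mY_eq]
  rcases x with x | x <;> rcases y with y | y
  · exact Matrix.blockDiagonal'_apply_ne _ _ _ h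
  · exact Matrix.blockDiagonal'_apply_ne _ _ _ h
  · exact Matrix.blockDiagonal'_apply_ne _ _ _ h
  · change (Matrix.blockDiagonal' fun b => bC G b * (bA G lam b)⁻¹ * bB G b) ⟨b, x⟩ ⟨b', y⟩ +
      X _ * (Matrix.blockDiagonal' (bY G z lam hlam)) ⟨b, x⟩ ⟨b', y⟩ = _
    rw [Matrix.blockDiagonal'_apply_ne _ _ _ h, Matrix.blockDiagonal'_apply_ne _ _ _ h, mul_zero,
      add_zero]

/-- **The charts exist.** -/
theorem chart_exists : ∃ ξ, ((tot G z).D lam hlam).IsChart ξ := by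
  classical
  refine ⟨fun t => bX G z lam hlam t.1 ((G t.1).surj t.2).choose
    ((G t.1).surj t.2).choose_spec.choose, ?_⟩
  intro x y
  obtain ⟨⟨b, x⟩, rfl⟩ := (cb A T1).symm.surjective x
  obtain ⟨⟨b', y⟩, rfl⟩ := (cb A T2).symm.surjective y
  by_cases h : b = b'
  · subst h
    have h1 : ((tot G z).D lam hlam).sg ((cb A T1).symm ⟨b, x⟩) ((cb A T2).symm ⟨b, y⟩) = 1 :=
      if_pos ((tot_on G z b b x y).2 rfl)
    have h2 : ((tot G z).D lam hlam).ix ((cb A T1).symm ⟨b, x⟩) ((cb A T2).symm ⟨b, y⟩)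
      = ⟨b, (G b).ix x y⟩ := tot_ix G z b x y
    rw [h1, h2, map_one, one_mul, mX_block]
    exact compat_bX G z lam hlam b _ _ _ _ ((G b).surj ((G b).ix x y)).choose_spec.choose_spec
  · have h1 : ((tot G z).D lam hlam).sg ((cb A T1).symm ⟨b, x⟩) ((cb A T2).symm ⟨b', y⟩) = 0 :=
      if_neg fun h' => h ((tot_on G z b b' x y).1 h')
    rw [h1, map_zero, zero_mul, mX_off G z lam hlam h]

end Total

end Pool.Agent.J6H7.BD
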