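import Pool.Agent.R852.MX.Eq
import Pool.Agent.TH192.DT.Fin

set_option autoImplicit false
set_option linter.unusedVariables false

/-! # Forms over the determinantal ideals of block diagonal matrices -/

namespace Pool.Agent.J6H7.BD

open Pool.Agent.TH192.DT Pool.Agent.TH192.MT Pool.Agent.W428.MOT Pool.Agent.W574.LM

/-- A block: the generic `m × n` matrix, or the generic symmetric `n × n` matrix. -/
inductive Blk : Type
  | gen (m n : ℕ) : Blk
  | sym (n : ℕ) : Blk

namespace Blk

/-- the number of the rows of the block -/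
def rows : Blk → ℕ
  | gen m _ => m
  | sym n => n

/-- the number of the columns of the block -/
def cols : Blk → ℕ
  | gen _ n => n
  | sym n => n

/-- The variables of the block: the places `(i, j)`, or the places `(i, j) = (j, i)`. -/
def Var : Blk → Type
  | gen m n => Fin m × Fin n
  | sym n => Sym2 (Fin n)

instance instFintypeVar : (S : Blk) → Fintype S.Var
  | gen m n => inferInstanceAs (Fintype (Fin m × Fin n))
  | sym n => inferInstanceAs (Fintype (Sym2 (Fin n)))

instance instDecidableEqVar : (S : Blk) → DecidableEq S.Var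
  | gen m n => inferInstanceAs (DecidableEq (Fin m × Fin n))
  | sym n => inferInstanceAs (DecidableEq (Sym2 (Fin n)))

/-- the variable at the place `(i, j)` -/
def place : (S : Blk) → Fin S.rows → Fin S.cols → S.Var
  | gen m n => fun i j => (i, j)
  | sym n => fun i j => s(i, j)

/-- the maximal rank of the block -/
def rk (S : Blk) : ℕ := min S.rows S.cols

/-- The codimension of the locus of the matrices of rank at most `d` in the space of the block:
`(m - d) (n - d)`, or `(n - d) (n - d + 1) / 2`. -/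
def codim : Blk → ℕ → ℕ
  | gen m n, d => (m - d) * (n - d)
  | sym n, d => (n - d) * (n - d + 1) / 2

end Blk

variable {k : ℕ} (S : Fin k → Blk)

/-- The variables of the block diagonal matrix. -/
abbrev BVar : Type := Σ b, (S b).Var

/-- The block diagonal matrix with the blocks `S b`: independent generic and generic symmetric
matrices. -/
noncomputable def blockMatrix :
    Matrix (Fin (∑ b, (S b).rows)) (Fin (∑ b, (S b).cols)) (MvPolynomial (BVar S) ℂ) :=
  (Matrix.blockDiagonal' fun b => Matrix.of fun i j =>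
    MvPolynomial.X (⟨b, (S b).place i j⟩ : BVar S)).submatrix finSigmaFinEquiv.symm
      finSigmaFinEquiv.symm

/-- The block diagonal matrix with the blocks `S b`, over `ℤ`. -/
noncomputable def blockMatrixZ :
    Matrix (Fin (∑ b, (S b).rows)) (Fin (∑ b, (S b).cols)) (MvPolynomial (BVar S) ℤ) :=
  (Matrix.blockDiagonal' fun b => Matrix.of fun i j =>
    MvPolynomial.X (⟨b, (S b).place i j⟩ : BVar S)).submatrix finSigmaFinEquiv.symm
      finSigmaFinEquiv.symm

/-- The maximal rank of the block diagonal matrix. -/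
def rkS : ℕ := ∑ b, (S b).rk

/-- The proper rank loci: the tuples `d` of ranks, `d b ≤ (S b).rk`, which are not all maximal. -/
abbrev Loc : Type := {d : (b : Fin k) → Fin ((S b).rk + 1) // ∃ b, (d b : ℕ) < (S b).rk}

/-- The sum of the ranks. -/
def Loc.sum {S : Fin k → Blk} (d : Loc S) : ℕ := ∑ b, (d.1 b : ℕ)

/-- The codimension of the locus of the block diagonal matrices, the block `b` of which has the
rank at most `d b`. -/
def Loc.codim {S : Fin k → Blk} (d : Loc S) : ℕ := ∑ b, (S b).codim (d.1 b)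

/-- The numbers `N_d = ∑ t, max (p t - ∑ b, d_b, 0)`. -/
def Loc.mul {S : Fin k → Blk} {T : ℕ} (p : Fin T → ℕ) (d : Loc S) : ℕ := ∑ t, (p t - d.sum)

/-- The index set of the `p`-minors of the block diagonal matrix: the choices of `p` rows and `p`
columns. -/
abbrev BIdx (p : ℕ) : Type :=
  (Fin p ↪o Fin (∑ b, (S b).rows)) × (Fin p ↪o Fin (∑ b, (S b).cols))

/-- The polynomial `∏ b, (∑_J y_{b,J} ∏_{β t = b} M_{J t}(x)) ^ a b` in the variables `y_{b,J}` and `x`:
for `b < B`, `J` runs over the choices of one minor `M_{J t}` of size `p t` of the block diagonal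
matrix with the blocks `S` for each `t < T` with `β t = b`. -/
noncomputable def bdForm {T B : ℕ} (p : Fin T → ℕ) (β : Fin T → Fin B) (a : Fin B → ℕ) :
    MvPolynomial ((Σ b, ((t : {t // β t = b}) → BIdx S (p t.1))) ⊕ BVar S) ℂ :=
  ∏ b, (∑ J : (t : {t // β t = b}) → BIdx S (p t.1), MvPolynomial.X (Sum.inl ⟨b, J⟩) *
    MvPolynomial.rename Sum.inr (∏ t, minorsOf (blockMatrix S) (p t.1) (J t))) ^ a b

/-- The multiplicities of `∏ b, F_b ^ a b`: `N_d = ∑ t, a (β t) max (p t - |d|, 0)` along `E_d`, and
`a b` along the strict transform of `F_b = 0`. -/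
def bdMul {T B : ℕ} (p : Fin T → ℕ) (β : Fin T → Fin B) (a : Fin B → ℕ) : Loc S ⊕ Fin B → ℕ :=
  Sum.elim (fun d => ∑ t, a (β t) * (p t - d.sum)) a

/-- The numbers `ν`: the codimension for `E_d`, and `1` for the strict transforms. -/
def bdNu (B : ℕ) : Loc S ⊕ Fin B → ℕ := Sum.elim (fun d => d.codim) fun _ => 1

/-- The variables `y_{b,J}` and `x`: for `b < B`, `J` runs over the choices of one `p t`-minor of the
block diagonal matrix with the blocks `S` for each `t < T` with `β t = b`. -/
abbrev BFVar {T B : ℕ} (p : Fin T → ℕ) (β : Fin T → Fin B) : Type :=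
  (Σ b, ((t : {t // β t = b}) → BIdx S (p t.1))) ⊕ BVar S

/-- The polynomial `∏ b, (∑_J y_{b,J} ∏_{β t = b} M_{J t}(x)) ^ a b` with integral coefficients in the
variables `y_{b,J}` and `x`: for `b < B`, `J` runs over the choices of one minor `M_{J t}` of size `p t`
of the block diagonal matrix with the blocks `S` for each `t < T` with `β t = b`. -/
noncomputable def bdFormZ {T B : ℕ} (p : Fin T → ℕ) (β : Fin T → Fin B) (a : Fin B → ℕ) :
    MvPolynomial (BFVar S p β) ℤ :=
  ∏ b, (∑ J : (t : {t // β t = b}) → BIdx S (p t.1), MvPolynomial.X (Sum.inl ⟨b, J⟩) *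
    MvPolynomial.rename Sum.inr (∏ t, ((blockMatrixZ S).submatrix (J t).1 (J t).2).det)) ^ a b

/-- The polynomial `∏ b, (∑_J y_{b,J} ∏_{β t = b} M_{J t}(x)) ^ a b` over the field `K`. -/
noncomputable def bdK (K : Type) [Field K] {T B : ℕ} (p : Fin T → ℕ) (β : Fin T → Fin B)
    (a : Fin B → ℕ) : MvPolynomial (BFVar S p β) K :=
  MvPolynomial.map (Int.castRingHom K) (bdFormZ S p β a)

/-- The pairs `(-ν_d, N_d)`, `ν_d` the codimension of the `x` with `rank X_b ≤ d_b` for all `b`,
`N_d = ∑ t, a (β t) max (p t - ∑ b, d_b, 0) > 0`, and the pairs `(-1, a b)`, `a b > 0`. -/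
noncomputable def bdPairs {T B : ℕ} (p : Fin T → ℕ) (β : Fin T → Fin B) (a : Fin B → ℕ) :
    Finset (ℤ × ℤ) := pairs (bdNu S B) (bdMul S p β a)

/-- The motivic zeta function `∑_{d ≥ 0} [X_d] 𝕃 ^ (-n d) T ^ d` in `𝓜[[T]]` of
`f = ∏ b, (∑_J y_{b,J} ∏_{β t = b} M_{J t}(x)) ^ a b`, `X_d` the set of the `d`-jets over `ℂ` with origin in
`W` on which `f` has the order `d`. -/
noncomputable def bdZeta {T B : ℕ} (p : Fin T → ℕ) (β : Fin T → Fin B) (a : Fin B → ℕ)
    (W : Set (Pt ℂ (BFVar S p β))) : PowerSeries (MK ℂ) :=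
  zetaM (bdK S ℂ p β a) W {c | c ≠ 0}

/-- The product of the ideals of the `p t`-minors of the block diagonal matrix with the blocks `S`,
over the field `K`: its generators, the products of one minor of size `p t` for each `t`. -/
noncomputable def bdI (K : Type) [Field K] {T : ℕ} (p : Fin T → ℕ)
    (J : (t : Fin T) → BIdx S (p t)) : MvPolynomial (BVar S) K :=
  MvPolynomial.map (Int.castRingHom K) (∏ t, ((blockMatrixZ S).submatrix (J t).1 (J t).2).det)

/-- The pairs `(-ν_d, N_d)`, `N_d > 0`. -/
def bdIPairs {T : ℕ} (p : Fin T → ℕ) : Set (ℤ × ℤ) :=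
  {q | ∃ d : Loc S, 0 < d.mul p ∧ q = (-(d.codim : ℤ), (d.mul p : ℤ))}

/-- `H b` satisfies a functional equation (of Budur, Mustata and Saito) of the generators
`∏ t, M_{J t}(x)` of the product of the ideals of the `p t`-minors. -/
def bdIEq {T : ℕ} (p : Fin T → ℕ) (H : MvPolynomial (BVar S) ℂ) (b : Polynomial ℂ) : Prop :=
  IsLocEq H (prodFam fun t => minorsOf (blockMatrix S) (p t)) b

end Pool.Agent.J6H7.BD
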