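import Pool.Agent.R852.MX.Top

set_option autoImplicit false
set_option linter.unusedSectionVars false
set_option linter.unusedVariables false

/-! # Block diagonal matrices: the states of the recursion -/

namespace Pool.Agent.J6H7.BD

open MvPolynomial Matrix Pool.Agent.W428.MOT Pool.Agent.TH192.DT Pool.Agent.TH192.MT
  Pool.Agent.TH192.MU Pool.Agent.TH192.PA

/-- The rows `I0` and the columns `J0` of a block diagonal matrix with the blocks `B`, some of them
symmetric, and with the variables `V`; `tw i j` says that the row `i` and the column `j` of a symmetric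
block have the same index. -/
structure Lay (B I0 J0 V : Type) where
  b1 : I0 → B
  b2 : J0 → B
  ix : I0 → J0 → V
  sy : B → Prop
  tw : I0 → J0 → Prop
  tw_b : ∀ i j, tw i j → b1 i = b2 j
  tw_l : ∀ i j j', tw i j → tw i j' → j = j'
  tw_r : ∀ i i' j, tw i j → tw i' j → i = i'
  tw1 : ∀ i, sy (b1 i) → ∃ j, tw i j
  tw2 : ∀ j, sy (b2 j) → ∃ i, tw i j
  inj : ∀ i j i' j', b1 i = b2 j → b1 i' = b2 j' → ix i j = ix i' j' →
    (i = i' ∧ j = j') ∨ (sy (b1 i) ∧ tw i j' ∧ tw i' j)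
  symm : ∀ i j i' j', sy (b1 i) → b1 i = b2 j → tw i j' → tw i' j → ix i j = ix i' j'

variable {B I0 J0 V : Type} (L : Lay B I0 J0 V)

/-- Some of the rows and of the columns. -/
structure St (I J : Type) where
  nI : I → I0
  nJ : J → J0
  iI : Function.Injective nI
  iJ : Function.Injective nJ
  c1 : ∀ i, L.sy (L.b1 (nI i)) → ∀ j0, L.tw (nI i) j0 → ∃ j, nJ j = j0
  c2 : ∀ j, L.sy (L.b2 (nJ j)) → ∀ i0, L.tw i0 (nJ j) → ∃ i, nI i = i0

variable {L} {I J I' J' : Type}

/-- the variables of the submatrix -/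
abbrev Vr (s : St L I J) : Type :=
  {v : V // ∃ i j, L.b1 (s.nI i) = L.b2 (s.nJ j) ∧ v = L.ix (s.nI i) (s.nJ j)}

noncomputable instance [Finite V] (s : St L I J) : Fintype (Vr s) :=
  Fintype.ofFinite _

open Classical in
/-- the submatrix -/
noncomputable def Mx (s : St L I J) : Matrix I J (MvPolynomial (Vr s) ℤ) :=
  Matrix.of fun i j => if h : L.b1 (s.nI i) = L.b2 (s.nJ j) then
    X ⟨L.ix (s.nI i) (s.nJ j), i, j, h, rfl⟩ else 0

/-- matrices of the same kind -/
def Comp (s : St L I J) {A : Type} [CommRing A] (N : Matrix I J A) : Prop :=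
  (∀ i j, L.b1 (s.nI i) ≠ L.b2 (s.nJ j) → N i j = 0) ∧
    ∀ i j i' j', L.sy (L.b1 (s.nI i)) → L.b1 (s.nI i) = L.b2 (s.nJ j) →
      L.tw (s.nI i) (s.nJ j') → L.tw (s.nI i') (s.nJ j) → N i j = N i' j'

theorem Mx_on (s : St L I J) (i : I) (j : J) (h : L.b1 (s.nI i) = L.b2 (s.nJ j)) :
    Mx s i j = X ⟨L.ix (s.nI i) (s.nJ j), i, j, h, rfl⟩ := dif_pos h

theorem Mx_off (s : St L I J) (i : I) (j : J) (h : ¬ L.b1 (s.nI i) = L.b2 (s.nJ j)) :
    Mx s i j = 0 := dif_neg h

theorem map_on (s : St L I J) {A : Type} [CommRing A] (x : Vr s → A) (i : I) (j : J)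
    (h : L.b1 (s.nI i) = L.b2 (s.nJ j)) :
    (Mx s).map (ev x) i j = x ⟨L.ix (s.nI i) (s.nJ j), i, j, h, rfl⟩ := by
  rw [Matrix.map_apply, Mx_on s i j h, ev_X]

theorem map_off (s : St L I J) {A : Type} [CommRing A] (x : Vr s → A) (i : I) (j : J)
    (h : ¬ L.b1 (s.nI i) = L.b2 (s.nJ j)) : (Mx s).map (ev x) i j = 0 := by
  rw [Matrix.map_apply, Mx_off s i j h, map_zero]

theorem comp_map (s : St L I J) {A : Type} [CommRing A] (x : Vr s → A) :
    Comp s ((Mx s).map (ev x)) := by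
  refine ⟨fun i j h => map_off s x i j h, fun i j i' j' hs h h1 h2 => ?_⟩
  have hb : L.b1 (s.nI i') = L.b2 (s.nJ j') := by
    rw [L.tw_b _ _ h2, ← h, L.tw_b _ _ h1]
  rw [map_on s x i j h, map_on s x i' j' hb]
  congr 1
  exact Subtype.ext (L.symm _ _ _ _ hs h h1 h2)

/-- the places of the variables -/
noncomputable def pos (s : St L I J) (v : Vr s) : I × J := (v.2.choose, v.2.choose_spec.choose)

theorem pos_on (s : St L I J) (v : Vr s) :
    L.b1 (s.nI (pos s v).1) = L.b2 (s.nJ (pos s v).2) := v.2.choose_spec.choose_spec.1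

theorem pos_ix (s : St L I J) (v : Vr s) :
    v.1 = L.ix (s.nI (pos s v).1) (s.nJ (pos s v).2) := v.2.choose_spec.choose_spec.2

theorem comp_coord (s : St L I J) {A : Type} [CommRing A] (N : Matrix I J A) (hN : Comp s N) :
    (Mx s).map (ev fun y => N (pos s y).1 (pos s y).2) = N := by
  ext i j
  by_cases h : L.b1 (s.nI i) = L.b2 (s.nJ j)
  · rw [map_on s _ i j h]
    set v : Vr s := ⟨L.ix (s.nI i) (s.nJ j), i, j, h, rfl⟩ with hv
    have h1 := pos_ix s v
    rcases L.inj _ _ _ _ h (pos_on s v) h1 with ⟨h2, h3⟩ | ⟨h2, h3, h4⟩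
    · rw [← s.iI h2, ← s.iJ h3]
    · exact (hN.2 i j _ _ h2 h h3 h4).symm
  · rw [map_off s _ i j h, hN.1 i j h]

/-- the condition on the pivots -/
structure PvC {k : ℕ} (s : St L I J) (s' : St L I' J') (e1 : Fin k ⊕ I' ≃ I)
    (e2 : Fin k ⊕ J' ≃ J) (b0 : B) : Prop where
  h1 : ∀ x, s'.nI x = s.nI (e1 (Sum.inr x))
  h2 : ∀ y, s'.nJ y = s.nJ (e2 (Sum.inr y))
  hb1 : ∀ a, L.b1 (s.nI (e1 (Sum.inl a))) = b0
  hb2 : ∀ a, L.b2 (s.nJ (e2 (Sum.inl a))) = b0
  hs : L.sy b0 → ∀ a, L.tw (s.nI (e1 (Sum.inl a))) (s.nJ (e2 (Sum.inl a)))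

variable {k : ℕ} {s : St L I J} {s' : St L I' J'} {e1 : Fin k ⊕ I' ≃ I}
    {e2 : Fin k ⊕ J' ≃ J} {b0 : B} (P : PvC s s' e1 e2 b0)

include P

/-- the Schur complement is of the same kind -/
theorem comp_schur {A : Type} [CommRing A] (N : Matrix I J A) (hN : Comp s N) :
    Comp s' (schur N e1 e2) := by
  obtain ⟨h1, h2, hb1, hb2, hs⟩ := P
  have hval : ∀ i j, schur N e1 e2 i j = N (e1 (Sum.inr i)) (e2 (Sum.inr j)) -
      ∑ a, (∑ b, N (e1 (Sum.inr i)) (e2 (Sum.inl b)) * (piv N e1 e2)⁻¹ b a) *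
        N (e1 (Sum.inl a)) (e2 (Sum.inr j)) := by
    intro i j
    unfold schur
    rw [Matrix.sub_apply, Matrix.mul_apply]
    congr 1
  have hz1 : ∀ i, L.b1 (s'.nI i) ≠ b0 → ∀ b, N (e1 (Sum.inr i)) (e2 (Sum.inl b)) = 0 := by
    intro i hi b
    apply hN.1
    rw [hb2, ← h1]
    exact hi
  have hz2 : ∀ j, L.b2 (s'.nJ j) ≠ b0 → ∀ a, N (e1 (Sum.inl a)) (e2 (Sum.inr j)) = 0 := by
    intro j hj a
    apply hN.1
    rw [hb1, ← h2]
    exact Ne.symm hj
  have hs1 : ∀ i, L.b1 (s'.nI i) ≠ b0 → ∀ j, schur N e1 e2 i j =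
      N (e1 (Sum.inr i)) (e2 (Sum.inr j)) := by
    intro i hi j
    rw [hval]
    simp only [hz1 i hi, zero_mul, Finset.sum_const_zero, sub_zero]
  refine ⟨fun i j h => ?_, fun i j i' j' hsy h ht ht' => ?_⟩
  · by_cases hi : L.b1 (s'.nI i) = b0
    · have hj : L.b2 (s'.nJ j) ≠ b0 := fun hj => h (hi.trans hj.symm)
      rw [hval]
      simp only [hz2 j hj, mul_zero, Finset.sum_const_zero, sub_zero]
      apply hN.1
      rw [← h1, ← h2]
      exact h
    · rw [hs1 i hi]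
      apply hN.1
      rw [← h1, ← h2]
      exact h
  · have hNij : N (e1 (Sum.inr i)) (e2 (Sum.inr j)) = N (e1 (Sum.inr i')) (e2 (Sum.inr j')) := by
      apply hN.2
      · rw [← h1]; exact hsy
      · rw [← h1, ← h2]; exact h
      · rw [← h1, ← h2]; exact ht
      · rw [← h1, ← h2]; exact ht'
    by_cases hi : L.b1 (s'.nI i) = b0
    · have hsb : L.sy b0 := by rw [← hi]; exact hsy
      have hsy1 : ∀ a, L.sy (L.b1 (s.nI (e1 (Sum.inl a)))) := fun a => by rw [hb1]; exact hsb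
      have hj : L.b2 (s'.nJ j) = b0 := h ▸ hi
      have hi' : L.b1 (s'.nI i') = b0 := by rw [L.tw_b _ _ ht', hj]
      have hj' : L.b2 (s'.nJ j') = b0 := by rw [← L.tw_b _ _ ht, hi]
      have hP : (piv N e1 e2).transpose = piv N e1 e2 := by
        ext a b
        change N (e1 (Sum.inl b)) (e2 (Sum.inl a)) = N (e1 (Sum.inl a)) (e2 (Sum.inl b))
        refine hN.2 _ _ _ _ (hsy1 b) ?_ (hs hsb b) (hs hsb a)
        rw [hb1, hb2]
      have hPi : ∀ a b, (piv N e1 e2)⁻¹ a b = (piv N e1 e2)⁻¹ b a := by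
        intro a b
        have h3 : ((piv N e1 e2)⁻¹).transpose = (piv N e1 e2)⁻¹ := by
          rw [Matrix.transpose_nonsing_inv, hP]
        exact congrFun (congrFun h3 b) a
      have hr : ∀ b, N (e1 (Sum.inr i)) (e2 (Sum.inl b)) =
          N (e1 (Sum.inl b)) (e2 (Sum.inr j')) := by
        intro b
        refine hN.2 _ _ _ _ ?_ ?_ ?_ (hs hsb b)
        · rw [← h1]; exact hsy
        · rw [hb2, ← h1]; exact hi
        · rw [← h1, ← h2]; exact ht
      have hc : ∀ a, N (e1 (Sum.inl a)) (e2 (Sum.inr j)) =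
          N (e1 (Sum.inr i')) (e2 (Sum.inl a)) := by
        intro a
        refine hN.2 _ _ _ _ (hsy1 a) ?_ (hs hsb a) ?_
        · rw [hb1, ← h2]; exact hj.symm
        · rw [← h1, ← h2]; exact ht'
      rw [hval, hval, hNij]
      congr 1
      simp only [Finset.sum_mul]
      rw [Finset.sum_comm]
      refine Finset.sum_congr rfl fun b _ => Finset.sum_congr rfl fun a _ => ?_
      rw [hr, hc, hPi b a]
      ring
    · have hi' : L.b1 (s'.nI i') ≠ b0 := by
        rw [L.tw_b _ _ ht', ← h]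
        exact hi
      rw [hs1 i hi, hs1 i' hi', hNij]

theorem piv_st {T : ℕ} [Finite V] [Fintype I] [Fintype J] [Fintype I'] [Fintype J']
    (e : Fin T → ℕ) :
    ∃ p : Piv (mSys (Mx s) e) (mSys (Mx s') fun t => e t - k),
      ∀ (A : Type) [CommRing A] (x : Vr s → A), ev (fun q => x (p.e (Sum.inl q))) p.u =
        (piv ((Mx s).map (ev x)) e1 e2).det := by
  classical
  have hon : ∀ v : Vr s', L.b1 (s.nI (e1 (Sum.inr (pos s' v).1))) =
      L.b2 (s.nJ (e2 (Sum.inr (pos s' v).2))) := by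
    intro v
    rw [← P.h1, ← P.h2]
    exact pos_on s' v
  refine matPiv (mSys (Mx s) e) (mSys (Mx s') fun t => e t - k) (Mx s) (Mx s') (pos s')
    e1 e2 (fun v => ⟨L.ix (s.nI (e1 (Sum.inr (pos s' v).1))) (s.nJ (e2 (Sum.inr (pos s' v).2))),
      _, _, hon v, rfl⟩) ?_ ?_ ?_ ?_ ?_
  · intro v w h
    have h1 := congrArg Subtype.val h
    simp only at h1
    rw [← P.h1, ← P.h1, ← P.h2, ← P.h2, ← pos_ix, ← pos_ix] at h1
    exact Subtype.ext h1
  · intro y
    exact Mx_on s _ _ (hon y)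
  · intro A _ x x' hxx' a b hab
    by_cases h : L.b1 (s.nI (e1 a)) = L.b2 (s.nJ (e2 b))
    · rw [Mx_on s _ _ h, ev_X, ev_X]
      apply hxx'
      rintro ⟨v, hv⟩
      have h1 := congrArg Subtype.val hv
      simp only at h1
      rcases L.inj _ _ _ _ (hon v) h h1 with ⟨h2, h3⟩ | ⟨h2, h3, h4⟩
      · exact hab _ _ (e1.injective (s.iI h2)).symm (e2.injective (s.iJ h3)).symm
      · -- the symmetric case
        have hbb : L.b1 (s.nI (e1 (Sum.inr (pos s' v).1))) = L.b2 (s.nJ (e2 b)) := L.tw_b _ _ h3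
        rcases a with a | a
        · have hb0 : L.b2 (s.nJ (e2 b)) = b0 := by rw [← h, P.hb1]
          have hsb : L.sy b0 := by rw [← hb0, ← hbb]; exact h2
          have h5 := L.tw_l _ _ _ (P.hs hsb a) h4
          have h6 := e2.injective (s.iJ h5)
          simp at h6
        · rcases b with b | b
          · have hb0 : L.b2 (s.nJ (e2 (Sum.inl b))) = b0 := P.hb2 b
            have hsb : L.sy b0 := by rw [← hb0, ← hbb]; exact h2
            have h5 := L.tw_r _ _ _ (P.hs hsb b) h3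
            have h6 := e1.injective (s.iI h5)
            simp at h6
          · exact hab a b rfl rfl
    · rw [Mx_off s _ _ h, map_zero, map_zero]
  · intro A _ x hx
    exact comp_coord s' _ (comp_schur P _ (comp_map s x))
  · intro A _ x x' h h' t
    exact hI_minors (Mx s) (Mx s') e e1 e2 A x x' h h' t

end Pool.Agent.J6H7.BD
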