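import Pool.Agent.J6H7.BD.Types
import Pool.Agent.J6H7.BD.Sys

set_option autoImplicit false
set_option linter.unusedSectionVars false
set_option linter.unusedVariables false

/-! # Block diagonal matrices: products of powers of forms over the determinantal ideals -/

namespace Pool.Agent.J6H7.BD

open Pool.Agent.W574.SM Pool.Agent.TH192.DT Pool.Agent.W574.LM Pool.Agent.H628R4.TP
  Pool.Agent.W574.HS

variable {k : ℕ} (S : Fin k → Blk)

section Data

variable {S} (d : (b : Fin k) → Fin ((S b).rk + 1))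

theorem le_rk (b : Fin k) : (d b : ℕ) ≤ (S b).rk := Nat.lt_succ_iff.1 (d b).2

/-- the data of the blocks -/
noncomputable def dat (b : Fin k) := (S b).gb (d b) (le_rk d b)

/-- the ordering of the rows -/
noncomputable def eR : (Σ b, Fin (d b)) ⊕
    (Σ b, (Fin ((S b).rk - d b) ⊕ Fin ((S b).rows - (S b).rk))) ≃ Fin (∑ b, (S b).rows) :=
  ((cb (fun b => Fin (d b)) (fun b => Fin ((S b).rk - d b) ⊕ Fin ((S b).rows - (S b).rk))).trans
    (Equiv.sigmaCongrRight fun b => eqv (S b).rows (S b).rk (d b) (le_rk d b)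
      (S b).rk_le_rows)).trans finSigmaFinEquiv

/-- the ordering of the columns -/
noncomputable def eC : (Σ b, Fin (d b)) ⊕
    (Σ b, (Fin ((S b).rk - d b) ⊕ Fin ((S b).cols - (S b).rk))) ≃ Fin (∑ b, (S b).cols) :=
  ((cb (fun b => Fin (d b)) (fun b => Fin ((S b).rk - d b) ⊕ Fin ((S b).cols - (S b).rk))).trans
    (Equiv.sigmaCongrRight fun b => eqv (S b).cols (S b).rk (d b) (le_rk d b)
      (S b).rk_le_cols)).trans finSigmaFinEquiv

theorem eR_symm (b : Fin k) (x : Fin (d b) ⊕ (Fin ((S b).rk - d b) ⊕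
    Fin ((S b).rows - (S b).rk))) :
    finSigmaFinEquiv.symm (eR d ((cb (fun b => Fin (d b)) _).symm ⟨b, x⟩))
      = ⟨b, eqv (S b).rows (S b).rk (d b) (le_rk d b) (S b).rk_le_rows x⟩ := by
  rw [eR, Equiv.trans_apply, Equiv.symm_apply_apply, Equiv.trans_apply,
    Equiv.apply_symm_apply]
  rfl

theorem eC_symm (b : Fin k) (x : Fin (d b) ⊕ (Fin ((S b).rk - d b) ⊕
    Fin ((S b).cols - (S b).rk))) :
    finSigmaFinEquiv.symm (eC d ((cb (fun b => Fin (d b)) _).symm ⟨b, x⟩))
      = ⟨b, eqv (S b).cols (S b).rk (d b) (le_rk d b) (S b).rk_le_cols x⟩ := by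
  rw [eC, Equiv.trans_apply, Equiv.symm_apply_apply, Equiv.trans_apply,
    Equiv.apply_symm_apply]
  rfl

variable (z : Σ b, Fin ((S b).rk - d b))

theorem mat_on (x y) (h : (tot (dat d) z).on x y) :
    blockMatrix S (eR d x) (eC d y) = MvPolynomial.X ((tot (dat d) z).ix x y) := by
  obtain ⟨⟨b, x⟩, rfl⟩ := (cb (fun b => Fin (d b)) _).symm.surjective x
  obtain ⟨⟨b', y⟩, rfl⟩ := (cb (fun b => Fin (d b)) _).symm.surjective y
  obtain rfl : b = b' := (tot_on (dat d) z b b' x y).1 h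
  rw [tot_ix, blockMatrix, Matrix.submatrix_apply, eR_symm, eC_symm,
    Matrix.blockDiagonal'_apply_eq, Matrix.of_apply]
  congr 2
  exact ((S b).gb_ix (d b) (le_rk d b) x y).symm

theorem mat_off (x y) (h : ¬ (tot (dat d) z).on x y) :
    blockMatrix S (eR d x) (eC d y) = 0 := by
  obtain ⟨⟨b, x⟩, rfl⟩ := (cb (fun b => Fin (d b)) _).symm.surjective x
  obtain ⟨⟨b', y⟩, rfl⟩ := (cb (fun b => Fin (d b)) _).symm.surjective y
  have hb : b ≠ b' := fun h' => h ((tot_on (dat d) z b b' x y).2 h')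
  rw [blockMatrix, Matrix.submatrix_apply, eR_symm, eC_symm,
    Matrix.blockDiagonal'_apply_ne _ _ _ hb]

theorem card_A : Fintype.card (Σ b, Fin (d b)) = ∑ b, (d b : ℕ) := by
  simp

theorem card_Q : Fintype.card (Σ b, Fin (d b)) + Fintype.card (Σ b, Fin ((S b).rk - d b))
    = rkS S := by
  simp only [Fintype.card_sigma, Fintype.card_fin, rkS]
  rw [← Finset.sum_add_distrib]
  exact Finset.sum_congr rfl fun b _ => Nat.add_sub_cancel' (le_rk d b)

/-- the roots which come from `E_d` -/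
theorem roots_E {τ : Type} [Fintype τ] [DecidableEq τ] (p : τ → ℕ)
    (hp : ∀ t, p t < rkS S) (t0 : τ) (h0 : ∑ b, (d b : ℕ) < p t0)
    (b : Polynomial ℂ) (H : MvPolynomial (BVar S) ℂ)
    (hb : Pool.Agent.W574.LM.IsLocEq H (prodFam fun t => minorsOf (blockMatrix S) (p t)) b)
    (hH : MvPolynomial.constantCoeff H ≠ 0)
    (l : ℕ) (hl : l < ∑ t, (p t - ∑ b, (d b : ℕ))) :
    b.eval (-(((∑ b, (S b).codim (d b) : ℕ) : ℂ) + l) /
      (∑ t, (p t - ∑ b, (d b : ℕ)) : ℕ)) = 0 := by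
  have hQ := card_Q d
  obtain ⟨z⟩ : Nonempty (Σ b, Fin ((S b).rk - d b)) := by
    rw [← Fintype.card_pos_iff]
    have := hp t0
    have h1 := card_A d
    omega
  have h1 := (tot (dat d) z).roots (eR d) (eC d) (blockMatrix S) (mat_on d z) (mat_off d z) p
    (fun t => by rw [hQ]; exact (hp t).le) t0 (by rw [card_A]; exact h0)
    (by rw [hQ]; exact hp t0) b H hb hH (fun lam hlam => chart_exists (dat d) z lam hlam) l
    (by rw [card_A]; exact hl) (∑ b, (S b).codim (d b)) ?_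
  · rw [card_A] at h1
    exact h1
  · rw [card_exc]
    exact Finset.sum_congr rfl fun b _ => (S b).card_gb (d b) (le_rk d b)

end Data

theorem minors_ne (p : ℕ) (hp : p < rkS S) : ∃ j, minorsOf (blockMatrix S) p j ≠ 0 := by
  let d : (b : Fin k) → Fin ((S b).rk + 1) := fun b => 0
  have hQ := card_Q d
  have hA := card_A d
  have hA0 : ∑ b, (d b : ℕ) = 0 := Finset.sum_eq_zero fun b _ => rfl
  obtain ⟨z⟩ : Nonempty (Σ b, Fin ((S b).rk - d b)) := by
    rw [← Fintype.card_pos_iff]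
    omega
  obtain ⟨ξ, hξ⟩ := chart_exists (dat d) z 1 one_ne_zero
  have h1 := HasOrd_of_span ((tot (dat d) z).hasOrd_fam 1 one_ne_zero hξ p
    (by rw [hQ]; exact hp.le)) ((tot (dat d) z).fam_mem (eR d) (eC d) (blockMatrix S)
      (mat_on d z) (mat_off d z) p) ((tot (dat d) z).minorsOf_mem (eR d) (eC d) (blockMatrix S)
      (mat_on d z) (mat_off d z) p)
  obtain ⟨_, F, hF, U, hU, hFU⟩ := h1
  by_contra hcon
  push Not at hcon
  have h2 : Set.range (minorsOf (blockMatrix S) p) ⊆ {0} := by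
    rintro _ ⟨j, rfl⟩
    exact hcon j
  have h3 : F = 0 := by
    have h4 := Submodule.span_mono h2 hF
    simpa using h4
  rw [h3, map_zero] at hFU
  have h5 : U = 0 := by
    by_contra hU0
    exact mul_ne_zero (pow_ne_zero _ (X_ne0 _)) hU0 hFU.symm
  rw [h5, map_zero] at hU
  exact hU rfl

theorem codim_pos (d : Loc S) : 0 < d.codim := by
  obtain ⟨d, b, hb⟩ := d
  change 0 < ∑ b, (S b).codim (d b)
  refine lt_of_lt_of_le ?_ (Finset.single_le_sum (f := fun b => (S b).codim (d b))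
    (fun _ _ => Nat.zero_le _) (Finset.mem_univ b))
  generalize (d b : ℕ) = e at hb ⊢
  generalize S b = R at hb ⊢
  cases R with
  | gen m n =>
    change e < min m n at hb
    change 0 < (m - e) * (n - e)
    exact Nat.mul_pos (by omega) (by omega)
  | sym n =>
    change e < min n n at hb
    change 0 < (n - e) * (n - e + 1) / 2
    refine half_pos ?_
    calc 2 ≤ 1 * (1 + 1) := by norm_num
      _ ≤ (n - e) * (n - e + 1) := Nat.mul_le_mul (by omega) (by omega)

/-- **The system of the minors of a block diagonal matrix.** -/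
theorem sysB {T : ℕ} (p : Fin T → ℕ) (hp : ∀ t, p t < rkS S) :
    RootSys (σ := BVar S) (κ := fun t => BIdx S (p t)) (fun t => minorsOf (blockMatrix S) (p t))
      (fun d : Loc S => d.codim) (fun d t => p t - d.sum) where
  ne := fun t => minors_ne S (p t) (hp t)
  pos := codim_pos S
  roots := fun {τ} _ _ π b H hH hb d l hl => by
    obtain ⟨x, _, hx⟩ := Finset.exists_ne_zero_of_sum_ne_zero
      (by omega : ∑ x, (p (π x) - d.sum) ≠ 0)
    exact roots_E d.1 (fun x => p (π x)) (fun x => hp (π x)) x (show d.sum < p (π x) by omega)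
      b H hb hH l hl

theorem bdForm_eq {T B : ℕ} (p : Fin T → ℕ) (β : Fin T → Fin B) (a : Fin B → ℕ) :
    bdForm S p β a = powProd a (blkF (fun t => minorsOf (blockMatrix S) (p t)) β) := rfl

/-- **The motivic form.** -/
theorem bd_mot {T B : ℕ} (p : Fin T → ℕ) (β : Fin T → Fin B) (a : Fin B → ℕ)
    (hp : ∀ t, p t < rkS S) : ∃ P : Finset (ℤ × ℤ), (∀ q ∈ P, q.1 < 0 ∧ 0 < q.2 ∧
      (∀ b : Polynomial ℂ, IsBFunction (bdForm S p β a) b → b.eval ((q.1 : ℂ) / q.2) = 0) ∧
      ∀ b : Polynomial ℂ, IsLocalBFunction (bdForm S p β a) b →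
        b.eval ((q.1 : ℂ) / q.2) = 0) ∧
    ∀ (R : Type) [CommRing R] (u : Rˣ) (c : Finset {i // 0 < bdMul S p β a i} → R),
      dlZ u (bdNu S B) (bdMul S p β a) c ∈ ratU u (P : Set (ℤ × ℤ)) :=
  motX (sysB S p hp) β a

/-- **The topological form.** -/
theorem bd_top {T B : ℕ} (p : Fin T → ℕ) (β : Fin T → Fin B) (a : Fin B → ℕ)
    (hp : ∀ t, p t < rkS S) (χ : Finset (Loc S ⊕ Fin B) → ℤ) (s : ℂ)
    (hs : (topZ (bdNu S B) (bdMul S p β a) χ).denom.eval s = 0) :
    (∀ b : Polynomial ℂ, IsBFunction (bdForm S p β a) b → b.eval s = 0) ∧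
      ∀ b : Polynomial ℂ, IsLocalBFunction (bdForm S p β a) b → b.eval s = 0 :=
  topX (sysB S p hp) β a χ s hs

end Pool.Agent.J6H7.BD
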