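import Pool.Agent.TH192.DT.Fin

set_option autoImplicit false
set_option linter.unusedSectionVars false
set_option linter.unusedVariables false

/-! # Block diagonal matrices: the coordinates on the divisors, given by minors -/

namespace Pool.Agent.J6H7.BD

open MvPowerSeries Pool.Agent.W574.SM Pool.Agent.TH192.DT

/-- an injection which avoids two elements -/
theorem exists_avoid2 {Q : Type} [Fintype Q] [DecidableEq Q] {q : ℕ}
    (hq : q + 2 ≤ Fintype.card Q) (i k : Q) :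
    ∃ κ : Fin q → Q, Function.Injective κ ∧ ∀ a, κ a ≠ i ∧ κ a ≠ k := by
  have h1 : q ≤ Fintype.card {x : Q // x ≠ i ∧ x ≠ k} := by
    rw [Fintype.card_subtype]
    have h2 : (Finset.univ.filter fun x : Q => x ≠ i ∧ x ≠ k)
        = (Finset.univ : Finset Q) \ {i, k} := by
      ext x
      simp
    rw [h2, Finset.card_sdiff, Finset.inter_univ, Finset.card_univ]
    have h3 : ({i, k} : Finset Q).card ≤ 2 := Finset.card_le_two
    omega
  obtain ⟨f⟩ : Nonempty (Fin q ↪ {x : Q // x ≠ i ∧ x ≠ k}) := by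
    rw [Function.Embedding.nonempty_iff_card_le, Fintype.card_fin]
    exact h1
  exact ⟨fun a => (f a).1, Subtype.val_injective.comp f.injective, fun a => (f a).2⟩

/-- The data of a block diagonal matrix: the places `(x, y)` with `on x y` are inside of the
blocks; the diagonal places of the exceptional part are the `(u q, w q)`. -/
structure Bm (A T1 T2 Q σ : Type) where
  ix : A ⊕ T1 → A ⊕ T2 → σ
  on : A ⊕ T1 → A ⊕ T2 → Prop
  u : Q → T1
  w : Q → T2
  u_inj : Function.Injective u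
  w_inj : Function.Injective w
  surj : ∀ t, ∃ x y, on x y ∧ t = ix x y
  exc : ∀ r c x y, on (Sum.inr r) (Sum.inr c) → on x y →
    ix (Sum.inr r) (Sum.inr c) = ix x y → (∃ r', x = Sum.inr r') ∧ (∃ c', y = Sum.inr c')
  dg : ∀ q x y, on x y → ix (Sum.inr (u q)) (Sum.inr (w q)) = ix x y →
    x = Sum.inr (u q) ∧ y = Sum.inr (w q)
  on_Q : ∀ q, on (Sum.inr (u q)) (Sum.inr (w q))
  z : Q

namespace Bm

variable {A T1 T2 Q σ : Type} [Fintype A] [DecidableEq A] [Fintype T1] [DecidableEq T1]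
  [Fintype T2] [DecidableEq T2] [Fintype Q] [DecidableEq Q] [Fintype σ] [DecidableEq σ]
  (G : Bm A T1 T2 Q σ)

open Classical in
/-- the diagonal matrix of the exceptional part -/
noncomputable def y0 (r : T1) (c : T2) : ℂ := if ∃ q, r = G.u q ∧ c = G.w q then 1 else 0

open Classical in
/-- the matrix of variables with the base point -/
noncomputable def D (lam : ℂ) (hlam : lam ≠ 0) : Mt A T1 T2 σ where
  ix := G.ix
  sg := fun x y => if G.on x y then 1 else 0
  sg_sq := fun x y h => by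
    split_ifs at h ⊢
    · exact one_mul 1
    · exact absurd rfl h
  surj := fun t => by
    obtain ⟨x, y, h, h'⟩ := G.surj t
    exact ⟨x, y, by rw [if_pos h]; exact one_ne_zero, h'⟩
  exc := fun r c x y h1 h2 h => by
    refine G.exc r c x y ?_ ?_ h
    · by_contra hn; exact h1 (if_neg hn)
    · by_contra hn; exact h2 (if_neg hn)
  A0 := lam • 1
  hA0 := by
    rw [Matrix.det_smul, Matrix.det_one, mul_one]
    exact pow_ne_zero _ hlam
  Y0 := Matrix.of G.y0
  r0 := G.u G.z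
  c0 := G.w G.z
  sg0 := by rw [if_pos (G.on_Q _)]; exact one_ne_zero
  Y0z := fun r c h1 h => by
    have h2 : G.on (Sum.inr r) (Sum.inr c) := by
      by_contra hn; exact h1 (if_neg hn)
    obtain ⟨h3, h4⟩ := G.dg _ _ _ h2 h.symm
    rw [Matrix.of_apply, y0, if_pos h2, if_pos ⟨G.z, Sum.inr_injective h3, Sum.inr_injective h4⟩]

variable (lam : ℂ) (hlam : lam ≠ 0)

theorem D_z : (G.D lam hlam).z = G.ix (Sum.inr (G.u G.z)) (Sum.inr (G.w G.z)) := rfl

theorem y0_diag (q : Q) : G.y0 (G.u q) (G.w q) = 1 := by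
  rw [y0, if_pos ⟨q, rfl, rfl⟩]

open Classical in
theorem jet_mY (l : σ) (r : T1) (c : T2) :
    jet l ((G.D lam hlam).mY r c) = TrivSqZeroExt.inl (G.y0 r c) + TrivSqZeroExt.inr
      (if l = G.ix (Sum.inr r) (Sum.inr c) ∧ G.on (Sum.inr r) (Sum.inr c) ∧
        l ≠ (G.D lam hlam).z then 1 else 0) := by
  rw [jet_apply, Mt.pderiv_mY]
  congr 2
  · rw [Mt.mY, Matrix.of_apply, map_add, constantCoeff_C]
    split_ifs
    · rw [map_zero, add_zero]; rfl
    · rw [Mt.v, map_mul, constantCoeff_X, mul_zero, add_zero]; rfl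
  · change constantCoeff (if l = G.ix (Sum.inr r) (Sum.inr c) ∧ l ≠ (G.D lam hlam).z then
      MvPowerSeries.C (if G.on (Sum.inr r) (Sum.inr c) then (1 : ℂ) else 0) else 0) = _
    by_cases h1 : l = G.ix (Sum.inr r) (Sum.inr c) ∧ l ≠ (G.D lam hlam).z
    · rw [if_pos h1, constantCoeff_C]
      by_cases h2 : G.on (Sum.inr r) (Sum.inr c)
      · rw [if_pos h2, if_pos ⟨h1.1, h2, h1.2⟩]
      · rw [if_neg h2, if_neg fun h => h2 h.2.1]
    · rw [if_neg h1, map_zero, if_neg fun h => h1 ⟨h.1, h.2.2⟩]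

theorem jet_det (l : σ) {q : ℕ} (ρ : Fin q → T1) (χ : Fin q → T2)
    (h : ∀ i j, i ≠ j → G.y0 (ρ i) (χ j) = 0) :
    jet l (((G.D lam hlam).mY).submatrix ρ χ).det
      = ∏ i, jet l ((G.D lam hlam).mY (ρ i) (χ i)) := by
  rw [RingHom.map_det, det_offdiag]
  · rfl
  · intro i j k m hij hkm
    rw [RingHom.mapMatrix_apply, Matrix.map_apply, Matrix.map_apply, Matrix.submatrix_apply,
      Matrix.submatrix_apply, G.jet_mY, G.jet_mY, h i j hij, h k m hkm]
    simp

/-- the rows `r, u (κ 0), u (κ 1), …` -/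
def cn {T : Type} (u : Q → T) {q : ℕ} (r : T) (κ : Fin q → Q) : Fin (q + 1) → T :=
  Fin.cons r (fun a => u (κ a))

theorem off (r : T1) (c : T2) {q : ℕ} (κ : Fin q → Q)
    (hκ : Function.Injective κ) (hr : ∀ a, r ≠ G.u (κ a)) (hc : ∀ a, c ≠ G.w (κ a))
    (i j : Fin (q + 1)) (hij : i ≠ j) : G.y0 (cn G.u r κ i) (cn G.w c κ j) = 0 := by
  revert hij
  refine Fin.cases ?_ (fun a => ?_) i <;> refine Fin.cases ?_ (fun b => ?_) j
  · intro h; exact absurd rfl h
  · intro _
    rw [cn, cn, Fin.cons_zero, Fin.cons_succ, y0, if_neg]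
    rintro ⟨q, h1, h2⟩
    exact hr b (by rw [G.w_inj h2]; exact h1)
  · intro _
    rw [cn, cn, Fin.cons_zero, Fin.cons_succ, y0, if_neg]
    rintro ⟨q, h1, h2⟩
    exact hc a (by rw [G.u_inj h1]; exact h2)
  · intro hab
    rw [cn, cn, Fin.cons_succ, Fin.cons_succ, y0, if_neg]
    rintro ⟨q, h1, h2⟩
    exact hab (by rw [hκ ((G.u_inj h1).trans (G.w_inj h2).symm)])

open Classical in
/-- the sum of the infinitesimal coordinates on the diagonal -/
noncomputable def sk (l : σ) {q : ℕ} (κ : Fin q → Q) : ℂ :=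
  ∑ a, if l = G.ix (Sum.inr (G.u (κ a))) (Sum.inr (G.w (κ a))) ∧
    G.on (Sum.inr (G.u (κ a))) (Sum.inr (G.w (κ a))) ∧ l ≠ (G.D lam hlam).z then 1 else 0

open Classical in
theorem jet_cn (l : σ) (hl : l ≠ (G.D lam hlam).z) (r : T1) (c : T2)
    (hrc : G.on (Sum.inr r) (Sum.inr c)) {q : ℕ} (κ : Fin q → Q)
    (hκ : Function.Injective κ) (hr : ∀ a, r ≠ G.u (κ a)) (hc : ∀ a, c ≠ G.w (κ a)) :
    jet l (((G.D lam hlam).mY).submatrix (cn G.u r κ) (cn G.w c κ)).det
      = (TrivSqZeroExt.inl (G.y0 r c) + TrivSqZeroExt.inr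
          (if l = G.ix (Sum.inr r) (Sum.inr c) then 1 else 0)) *
        (TrivSqZeroExt.inl 1 + TrivSqZeroExt.inr (G.sk lam hlam l κ)) := by
  rw [G.jet_det lam hlam l _ _ (G.off r c κ hκ hr hc), Fin.prod_univ_succ]
  have h1 : ∀ a : Fin q, jet l ((G.D lam hlam).mY (cn G.u r κ a.succ) (cn G.w c κ a.succ))
      = TrivSqZeroExt.inl 1 + TrivSqZeroExt.inr
        (if l = G.ix (Sum.inr (G.u (κ a))) (Sum.inr (G.w (κ a))) ∧
          G.on (Sum.inr (G.u (κ a))) (Sum.inr (G.w (κ a))) ∧ l ≠ (G.D lam hlam).z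
          then 1 else 0) := by
    intro a
    rw [G.jet_mY, cn, cn, Fin.cons_succ, Fin.cons_succ, G.y0_diag]
  simp only [h1]
  rw [prod_one_add_inr, G.jet_mY]
  rw [cn, cn, Fin.cons_zero, Fin.cons_zero, sk]
  congr 3
  simp [hl, hrc]

theorem jet_detA (l : σ) : ∃ e : ℂ, jet l (G.D lam hlam).mA.det
    = TrivSqZeroExt.inl (lam ^ Fintype.card A) + TrivSqZeroExt.inr e := by
  refine ⟨constantCoeff (pderiv ℂ l (G.D lam hlam).mA.det), ?_⟩
  rw [jet_apply]
  congr 2
  rw [Mt.cc_detA]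
  change (lam • (1 : Matrix A A ℂ)).det = _
  rw [Matrix.det_smul, Matrix.det_one, mul_one]

/-- the determinants of the square submatrices -/
noncomputable def fam (p : ℕ) (rc : (Fin p → A ⊕ T1) × (Fin p → A ⊕ T2)) :
    MvPolynomial σ ℂ :=
  ((G.D 1 one_ne_zero).mP.submatrix rc.1 rc.2).det

theorem mP_eq : (G.D lam hlam).mP = (G.D 1 one_ne_zero).mP := rfl

variable {ξ : σ → MvPowerSeries σ ℂ} (hξ : (G.D lam hlam).IsChart ξ)

include hξ

theorem aeval_fam {p : ℕ} (rc : (Fin p → A ⊕ T1) × (Fin p → A ⊕ T2)) :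
    MvPolynomial.aeval ξ (G.fam p rc) = ((G.D lam hlam).mX.submatrix rc.1 rc.2).det := by
  rw [fam, ← G.mP_eq lam hlam, Mt.aeval_det _ hξ]

theorem aeval_special {q : ℕ} (ρ : Fin q → T1) (χ : Fin q → T2) {p : ℕ}
    (eP : A ⊕ Fin q ≃ Fin p) :
    MvPolynomial.aeval ξ (G.fam p (fun i => Sum.map id ρ (eP.symm i),
      fun i => Sum.map id χ (eP.symm i)))
      = X (G.D lam hlam).z ^ q * ((G.D lam hlam).mA.det *
        (((G.D lam hlam).mY).submatrix ρ χ).det) := by
  rw [G.aeval_fam lam hlam hξ]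
  have h := (G.D lam hlam).special_minor eP ρ χ
  rw [Fintype.card_fin] at h
  exact h

/-- the order of the minors along the divisor -/
theorem hasOrd_fam (p : ℕ) (hp : p ≤ Fintype.card A + Fintype.card Q) :
    HasOrd (G.D lam hlam).z ξ (p - Fintype.card A) (G.fam p) := by
  refine ⟨fun rc => ?_, ?_⟩
  · rw [G.aeval_fam lam hlam hξ]
    rcases Nat.lt_or_ge p (Fintype.card A) with h | h
    · rw [Nat.sub_eq_zero_of_le h.le, pow_zero]
      exact one_dvd _
    · exact Mt.dvd_minor _ _ (by rw [Fintype.card_fin]; omega) _ _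
  · rcases Nat.lt_or_ge p (Fintype.card A) with h | h
    · obtain ⟨r⟩ : Nonempty (Fin p ↪ A) := by
        rw [Function.Embedding.nonempty_iff_card_le, Fintype.card_fin]
        exact h.le
      refine ⟨G.fam p (fun i => Sum.inl (r i), fun i => Sum.inl (r i)),
        Submodule.subset_span ⟨_, rfl⟩, ((G.D lam hlam).mX.submatrix (fun i => Sum.inl (r i))
          (fun i => Sum.inl (r i))).det, ?_, ?_⟩
      · rw [(G.D lam hlam).minor_A r r]
        have h1 : ((G.D lam hlam).A0.submatrix r r) = lam • 1 := by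
          change (lam • (1 : Matrix A A ℂ)).submatrix r r = lam • 1
          rw [Matrix.submatrix_smul, Pi.smul_apply, Pi.smul_apply,
            Matrix.submatrix_one _ r.injective]
        rw [h1, Matrix.det_smul, Matrix.det_one, mul_one]
        exact pow_ne_zero _ hlam
      · rw [Nat.sub_eq_zero_of_le h.le, pow_zero, one_mul, G.aeval_fam lam hlam hξ]
    · have eP : A ⊕ Fin (p - Fintype.card A) ≃ Fin p :=
        Fintype.equivOfCardEq (by rw [Fintype.card_sum, Fintype.card_fin, Fintype.card_fin]; omega)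
      obtain ⟨u⟩ : Nonempty (Fin (p - Fintype.card A) ↪ Q) := by
        rw [Function.Embedding.nonempty_iff_card_le, Fintype.card_fin]
        omega
      have hui : Function.Injective u := u.injective
      refine ⟨_, Submodule.subset_span ⟨_, rfl⟩, _, ?_,
        G.aeval_special lam hlam hξ (fun i => G.u (u i)) (fun i => G.w (u i)) eP⟩
      rw [map_mul, Mt.cc_detA]
      refine mul_ne_zero (G.D lam hlam).hA0 ?_
      have h2 : ∀ i j, i ≠ j → G.y0 (G.u (u i)) (G.w (u j)) = 0 := by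
        intro i j hij
        rw [y0, if_neg]
        rintro ⟨q, h1, h2⟩
        exact hij (hui ((G.u_inj h1).trans (G.w_inj h2).symm))
      rw [← jet_fst (G.D lam hlam).z, G.jet_det lam hlam _ _ _ h2]
      simp only [G.jet_mY]
      have h3 : ∀ i, G.y0 (G.u (u i)) (G.w (u i)) = 1 := fun i => G.y0_diag _
      simp only [h3]
      rw [prod_one_add_inr]
      simp

/-- the coordinates given by the minors -/
theorem gives_fam (p : ℕ) (hp : Fintype.card A < p)
    (hp2 : p < Fintype.card A + Fintype.card Q) (t : σ)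
    (ht : t ≠ (G.D lam hlam).z) (hexc : (G.D lam hlam).IsExc t) :
    Gives (G.D lam hlam).z ξ (p - Fintype.card A) (G.fam p) t := by
  classical
  obtain ⟨r, c, hon0, htrc⟩ := id hexc
  have hon : G.on (Sum.inr r) (Sum.inr c) := by
    by_contra hn; exact hon0 (if_neg hn)
  change t = G.ix (Sum.inr r) (Sum.inr c) at htrc
  obtain ⟨q, hq⟩ : ∃ q, p - Fintype.card A = q + 1 := ⟨p - Fintype.card A - 1, by omega⟩
  rw [hq]
  have eP : A ⊕ Fin (q + 1) ≃ Fin p :=
    Fintype.equivOfCardEq (by rw [Fintype.card_sum, Fintype.card_fin, Fintype.card_fin]; omega)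
  have hqn : q + 2 ≤ Fintype.card Q := by omega
  by_cases hrc : ∃ i, r = G.u i ∧ c = G.w i
  · obtain ⟨i, rfl, rfl⟩ := hrc
    have hil : i ≠ G.z := by
      rintro rfl
      exact ht htrc
    obtain ⟨κ, hκ, hκ2⟩ := exists_avoid2 hqn i G.z
    have e1 : ∀ a, G.u i ≠ G.u (κ a) := fun a h => (hκ2 a).1 (G.u_inj h).symm
    have e2 : ∀ a, G.w i ≠ G.w (κ a) := fun a h => (hκ2 a).1 (G.w_inj h).symm
    have e3 : ∀ a, G.u G.z ≠ G.u (κ a) := fun a h => (hκ2 a).2 (G.u_inj h).symm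
    have e4 : ∀ a, G.w G.z ≠ G.w (κ a) := fun a h => (hκ2 a).2 (G.w_inj h).symm
    set sp : Q → (Fin p → A ⊕ T1) × (Fin p → A ⊕ T2) := fun k =>
      (fun i => Sum.map id (cn G.u (G.u k) κ) (eP.symm i),
        fun i => Sum.map id (cn G.w (G.w k) κ) (eP.symm i)) with hsp
    have hspe : ∀ k, MvPolynomial.aeval ξ (G.fam p (sp k)) = X (G.D lam hlam).z ^ (q + 1) *
        ((G.D lam hlam).mA.det * (((G.D lam hlam).mY).submatrix (cn G.u (G.u k) κ)
          (cn G.w (G.w k) κ)).det) := fun k => G.aeval_special lam hlam hξ _ _ eP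
    refine ⟨G.fam p (sp i) - G.fam p (sp G.z),
      Submodule.sub_mem _ (Submodule.subset_span ⟨_, rfl⟩)
      (Submodule.subset_span ⟨_, rfl⟩), _, ?_, by
        rw [map_sub, hspe, hspe, ← mul_sub, ← mul_sub]⟩
    refine isCoord_of_jet _ _ _ (lam ^ Fintype.card A) (pow_ne_zero _ hlam) ?_ ht
    intro l hl
    obtain ⟨e, he⟩ := G.jet_detA lam hlam l
    rw [map_mul, map_sub, he, G.jet_cn lam hlam l hl _ _ (G.on_Q i) κ hκ e1 e2,
      G.jet_cn lam hlam l hl _ _ (G.on_Q G.z) κ hκ e3 e4]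
    rw [G.y0_diag, G.y0_diag, if_neg (show ¬ l = G.ix (Sum.inr (G.u G.z))
      (Sum.inr (G.w G.z)) from hl), Gm.arith2]
    congr 1
    by_cases hlt : l = t
    · rw [if_pos (hlt.trans htrc), if_pos hlt, mul_one]
    · rw [if_neg fun h => hlt (h.trans htrc.symm), if_neg hlt, mul_zero]
  · -- the other coordinates
    have hy0 : G.y0 r c = 0 := if_neg hrc
    obtain ⟨ri, hri⟩ : ∃ ri : Q, ∀ k, r = G.u k → k = ri := by
      by_cases h : ∃ k, r = G.u k
      · obtain ⟨k, hk⟩ := h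
        exact ⟨k, fun k' hk' => G.u_inj (hk'.symm.trans hk)⟩
      · exact ⟨G.z, fun k hk => absurd ⟨k, hk⟩ h⟩
    obtain ⟨ci, hci⟩ : ∃ ci : Q, ∀ k, c = G.w k → k = ci := by
      by_cases h : ∃ k, c = G.w k
      · obtain ⟨k, hk⟩ := h
        exact ⟨k, fun k' hk' => G.w_inj (hk'.symm.trans hk)⟩
      · exact ⟨G.z, fun k hk => absurd ⟨k, hk⟩ h⟩
    obtain ⟨κ, hκ, hκ2⟩ := exists_avoid2 hqn ri ci
    have e1 : ∀ a, r ≠ G.u (κ a) := fun a h => (hκ2 a).1 (hri _ h)
    have e2 : ∀ a, c ≠ G.w (κ a) := fun a h => (hκ2 a).2 (hci _ h)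
    refine ⟨_, Submodule.subset_span ⟨_, rfl⟩, _, ?_,
      G.aeval_special lam hlam hξ (cn G.u r κ) (cn G.w c κ) eP⟩
    refine isCoord_of_jet _ _ _ (lam ^ Fintype.card A) (pow_ne_zero _ hlam) ?_ ht
    intro l hl
    obtain ⟨e, he⟩ := G.jet_detA lam hlam l
    rw [map_mul, he, G.jet_cn lam hlam l hl _ _ hon κ hκ e1 e2, hy0, Gm.arith1]
    congr 1
    by_cases hlt : l = t
    · rw [if_pos (hlt.trans htrc), if_pos hlt, mul_one]
    · rw [if_neg fun h => hlt (h.trans htrc.symm), if_neg hlt, mul_zero]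

end Bm

end Pool.Agent.J6H7.BD
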