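import Pool.Agent.R852.MX.Top
import Pool.Agent.J6H7.BD.Sys

set_option autoImplicit false
set_option linter.unusedSectionVars false
set_option linter.unusedVariables false

/-! # Rationality of the zeta functions of products of families, from the recursion -/

namespace Pool.Agent.J6H7.BD

open MvPolynomial Pool.Agent.W428.MOT Pool.Agent.TH192.DT Pool.Agent.TH192.MT
  Pool.Agent.TH192.MU Pool.Agent.TH192.PA Pool.Agent.R852.MX Pool.Agent.H628R4.TP

/-- the pairs at one tuple of exponents -/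
def imD {T : ℕ} (a : Fin T → ℕ) (D : Set (ℕ × (Fin T → ℕ))) : Set (ℤ × ℤ) :=
  {q | ∃ q' ∈ D, 0 < ∑ t, a t * q'.2 t ∧ q = (-(q'.1 : ℤ), ((∑ t, a t * q'.2 t : ℕ) : ℤ))}

/-- All the zeta functions of the system are rational. -/
structure RatS (K : Type) [Field K] {T : ℕ} (D : Set (ℕ × (Fin T → ℕ))) (X : Sys T) : Prop where
  rf : ∀ {R : Type} [CommRing R] {u : Rˣ} {M : Meas K R}, M.L = (u : R) → RF u M D X
  rt : ∀ {R : Type} [CommRing R] {u : Rˣ} {M : Meas K R}, M.L = (u : R) →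
    ∀ a : Fin T → ℕ, (∀ t, 0 < a t) → Rt u M a (imD a D) X

variable {K : Type} [Field K] {T : ℕ}

theorem ratS_step {D : Set (ℕ × (Fin T → ℕ))} {X : Sys T}
    (e : Fin T → ℕ) (he : ∀ l, (X.G l).IsHomogeneous (e (X.τ l))) {B : Type} [Fintype B]
    (Y : B → Sys T) (p : ∀ b, Piv X (Y b)) (hY : ∀ b, RatS K D (Y b))
    (cov : ∀ x : X.ι → AlgebraicClosure K, x ≠ 0 →
      ∃ b, ev (fun q => x ((p b).e (Sum.inl q))) (p b).u ≠ 0)
    (hD : (∃ t, 0 < e t) → (Fintype.card X.ι, e) ∈ D) : RatS K D X where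
  rf := fun {R _ u M} hM => rf_step hM (Set.Subset.refl _) e he Y p
    (fun b => (hY b).rf hM) cov hD
  rt := fun {R _ u M} hM a ha => rt_step hM (Set.Subset.refl _) ha e he Y p
    (fun b => (hY b).rt hM a ha) cov fun hN => by
      obtain ⟨t, _, ht⟩ := Finset.exists_ne_zero_of_sum_ne_zero hN.ne'
      exact ⟨_, hD ⟨t, Nat.pos_of_ne_zero (right_ne_zero_of_mul ht)⟩, hN, rfl⟩

theorem ratS_change {D : Set (ℕ × (Fin T → ℕ))} {Xs Ys : Sys T} (e : Ys.ι ≃ Xs.ι)
    (H : ∀ (A : Type) [CommRing A] (x : Xs.ι → A) (t : Fin T),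
      fI Xs x t = fI Ys (fun y => x (e y)) t) (hY : RatS K D Ys) : RatS K D Xs where
  rf := fun {R _ u M} hM => rf_change hM e H (hY.rf hM)
  rt := fun {R _ u M} hM a ha => rt_change hM e H (hY.rt hM a ha)

theorem imD_mono (a : Fin T → ℕ) {D D' : Set (ℕ × (Fin T → ℕ))} (h : D ⊆ D') :
    imD a D ⊆ imD a D' := by
  rintro q ⟨q', hq', h1⟩
  exact ⟨q', h hq', h1⟩

theorem ratS_mono {D D' : Set (ℕ × (Fin T → ℕ))} (h : D ⊆ D') {X : Sys T} (hX : RatS K D X) :
    RatS K D' X where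
  rf := fun {R _ u M} hM π _ V hV hG hC => ratF_mono u h (hX.rf hM π V hV hG hC)
  rt := fun {R _ u M} hM a ha π _ V hV hG =>
    rat_mono u (imD_mono a h) (hX.rt hM a ha π V hV hG)

theorem ratS_blk {B : ℕ} {D : Set (ℕ × (Fin T → ℕ))} {X : Sys T} (β : Fin T → Fin B)
    (hX : RatS K D X) : RatS K (pushD β D) (XM X β) where
  rf := fun {R _ u M} hM => rf_blk X β (hX.rf hM)
  rt := fun {R _ u M} hM a ha π _ V hV hG => by
    rw [gfM_eq X β M _ hV hG a ha]
    refine rat_mono u ?_ (hX.rt hM (fun t => a (β t)) (fun t => ha _) π _ (constr_VM X β hV)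
      (gd_VM X β V))
    rintro q ⟨q', hq', h1, rfl⟩
    have key : ∑ b, a b * ∑ t : {t // β t = b}, q'.2 t.1 = ∑ t, a (β t) * q'.2 t := by
      rw [← sum_blocks β]
      refine Finset.sum_congr rfl fun b _ => ?_
      rw [Finset.mul_sum]
      exact Finset.sum_congr rfl fun t _ => by rw [t.2]
    refine ⟨_, ⟨q', hq', rfl⟩, ?_, ?_⟩
    · simp only
      rw [key]
      exact h1
    · simp only
      rw [key]

/-! ### families -/

section fam

variable {σ : Type} [Fintype σ] {B : ℕ} {κ : Fin T → Type} [∀ t, Fintype (κ t)]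
  (g : (t : Fin T) → κ t → MvPolynomial σ ℤ) (β : Fin T → Fin B)

/-- the families `g t` -/
@[reducible] noncomputable def gSys : Sys T where
  ι := σ
  fι := inferInstance
  Λ := Σ t, κ t
  fΛ := inferInstance
  τ l := l.1
  G l := g l.1 l.2

/-- the products of the blocks -/
@[reducible] noncomputable def gmSys : Sys B where
  ι := σ
  fι := inferInstance
  Λ := Σ b, ((t : {t // β t = b}) → κ t.1)
  fΛ := inferInstance
  τ l := l.1
  G l := ∏ t, g t.1 (l.2 t)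

/-- The polynomial `∏ b, (∑_J y_{b,J} ∏_{β t = b} g_{t,J t}) ^ a b`. -/
noncomputable def gForm (a : Fin B → ℕ) :
    MvPolynomial ((Σ b, ((t : {t // β t = b}) → κ t.1)) ⊕ σ) ℤ :=
  ∏ b, (∑ J : (t : {t // β t = b}) → κ t.1,
    X (Sum.inl ⟨b, J⟩) * rename Sum.inr (∏ t, g t.1 (J t))) ^ a b

variable {g}

theorem gm_rat {D : Set (ℕ × (Fin T → ℕ))} (hg : RatS K D (gSys g)) :
    RatS K (pushD β D) (gmSys g β) := by
  refine ratS_change (Xs := gmSys g β) (Ys := XM (gSys g) β) (Equiv.refl _) ?_ (ratS_blk β hg)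
  intro A _ x b
  unfold fI
  congr 1
  ext y
  constructor
  · rintro ⟨⟨b', J⟩, hb, rfl⟩
    have hb' : b' = b := hb
    subst hb'
    exact ⟨⟨b', ⟨fun t => ⟨t.1, J t⟩, fun t => rfl⟩⟩, rfl, rfl⟩
  · rintro ⟨⟨b', c⟩, hb, rfl⟩
    have hb' : b' = b := hb
    subst hb'
    have h2 : ∀ t : {t // β t = b'}, ∃ j : κ t.1, (gSys g).G (c.1 t) = g t.1 j := by
      intro t
      have h3 : ∀ (l : Σ t, κ t) (t : Fin T), l.1 = t → ∃ j : κ t, g l.1 l.2 = g t j := by
        rintro ⟨t', j⟩ t rfl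
        exact ⟨j, rfl⟩
      exact h3 (c.1 t) t.1 (c.2 t)
    choose j hj using h2
    refine ⟨⟨b', j⟩, rfl, ?_⟩
    change ev x (∏ t, (gSys g).G (c.1 t)) = ev x (∏ t, g t.1 (j t))
    congr 1
    exact Finset.prod_congr rfl fun t _ => hj t

theorem fX_gm (a : Fin B → ℕ) : fX (gmSys g β) a = gForm g β a := by
  classical
  unfold fX gForm
  refine Finset.prod_congr rfl fun b _ => ?_
  congr 1
  rw [Fintype.sum_sigma, Finset.sum_eq_single b]
  · refine Finset.sum_congr rfl fun j _ => ?_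
    rw [if_pos rfl]
  · intro b' _ hb'
    refine Finset.sum_eq_zero fun j _ => ?_
    rw [if_neg hb']
  · intro h
    exact absurd (Finset.mem_univ _) h

theorem map_gForm (a : Fin B → ℕ) : map (Int.castRingHom ℂ) (gForm g β a) =
    powProd a (blkF (fun t j => map (Int.castRingHom ℂ) (g t j)) β) := by
  unfold gForm powProd blockForm
  rw [map_prod]
  refine Finset.prod_congr rfl fun b _ => ?_
  rw [map_pow, map_sum]
  congr 1
  refine Finset.sum_congr rfl fun J _ => ?_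
  rw [map_mul, map_X, map_rename, map_prod]
  rfl

/-- the pairs -/
def dpr {D : Type} (ν : D → ℕ) (μ : D → Fin T → ℕ) : Set (ℕ × (Fin T → ℕ)) :=
  {q | ∃ i : D, (∃ t, 0 < μ i t) ∧ q = (ν i, μ i)}

variable {D : Type} [Fintype D] {ν : D → ℕ} {μ : D → Fin T → ℕ} (a : Fin B → ℕ)

/-- the pairs of the powers -/
theorem pairs_push (ha : ∀ b, 0 < a b) (q : ℕ × (Fin B → ℕ)) (hq : q ∈ pushD β (dpr ν μ)) :
    (-(q.1 : ℤ), ((∑ b, a b * q.2 b : ℕ) : ℤ)) ∈ pairs (nuX ν B) (mulX μ β a) := by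
  obtain ⟨_, ⟨i, ⟨t, ht⟩, rfl⟩, rfl⟩ := hq
  have key : ∑ b, a b * ∑ t : {t // β t = b}, μ i t.1 = ∑ t, a (β t) * μ i t := by
    rw [← sum_blocks β]
    refine Finset.sum_congr rfl fun b _ => ?_
    rw [Finset.mul_sum]
    exact Finset.sum_congr rfl fun t _ => by rw [t.2]
  simp only
  rw [key]
  refine mem_pairs (nuX ν B) (mulX μ β a) (Sum.inl i) ?_
  change 0 < ∑ t, a (β t) * μ i t
  exact Finset.sum_pos' (fun _ _ => Nat.zero_le _)
    ⟨t, Finset.mem_univ t, Nat.mul_pos (ha _) ht⟩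

/-- the pairs of the strict transforms -/
theorem pairs_one (ha : ∀ b, 0 < a b) (b : Fin B) :
    (-1, (a b : ℤ)) ∈ pairs (nuX ν B) (mulX μ β a) :=
  mem_pairs (nuX ν B) (mulX μ β a) (Sum.inr b) (ha b)

/-- **The zeta functions of the products of powers of the forms.** -/
theorem fam_zeta [CharZero K] (hg : RatS K (dpr ν μ) (gSys g)) (ha : ∀ b, 0 < a b)
    {W : Set (Pt K ((Σ b, ((t : {t // β t = b}) → κ t.1)) ⊕ σ))} (hW : Constr W)
    {E : Set (AlgebraicClosure K)} (hE : GoodE E) :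
    zetaM (map (Int.castRingHom K) (gForm g β a)) W E ∈
      ratRing K (pairs (nuX ν B) (mulX μ β a) : Set (ℤ × ℤ)) := by
  obtain ⟨M, hL, hM⟩ := exists_meas K
  have h1 := zetaS_mem (X := gmSys g β) (a := a) hL ha
    (D := (pairs (nuX ν B) (mulX μ β a) : Set (ℤ × ℤ)))
    (fun π _ V hV hG => rat_mono (Lu K) (by
      rintro q ⟨q', hq', _, rfl⟩
      exact pairs_push β a ha q' hq') ((gm_rat β hg).rt hL a ha π V hV hG))
    (fun b => pairs_one β a ha b) (W := W) hW (E := E) hE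
  rw [fX_gm] at h1
  have h2 : zetaM (map (Int.castRingHom K) (gForm g β a)) W E =
      zetaS M (((Lu K)⁻¹ : (MK K)ˣ) : MK K) (map (Int.castRingHom K) (gForm g β a)) W E := by
    unfold zetaM zetaS
    congr 1
    funext d
    rw [hM, inv_pow_eq, Nat.mul_comm]
  rw [h2]
  exact h1

/-- **The zeta functions, with the factors `𝕃 - 1`.** -/
theorem fam_zetaL [CharZero K] (hg : RatS K (dpr ν μ) (gSys g)) (ha : ∀ b, 0 < a b)
    {W : Set (Pt K ((Σ b, ((t : {t // β t = b}) → κ t.1)) ⊕ σ))} (hW : Constr W) :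
    zetaM (map (Int.castRingHom K) (gForm g β a)) W {c | c ≠ 0} ∈
      ratL (Lu K) (pairs (nuX ν B) (mulX μ β a) : Set (ℤ × ℤ)) := by
  classical
  obtain ⟨M, hL, hM⟩ := exists_meas K
  have h1 := zetaS_memF (X := gmSys g β) hL
    (D := pushD β (dpr ν μ) ∪ Set.range fun b : Fin B => (1, Pi.single b 1))
    (fun π _ V hV hG hC => ratF_mono (Lu K) Set.subset_union_left
      ((gm_rat β hg).rf hL π V hV hG hC))
    (fun t => Or.inr ⟨t, rfl⟩) (W := W) hW
  have h2 : (fun a : PA B => zetaM (map (Int.castRingHom K) (gForm g β a.1)) W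
      {c | c ≠ 0}) =
      fun a : PA B => zetaS M (((Lu K)⁻¹ : (MK K)ˣ) : MK K)
        (map (Int.castRingHom K) (fX (gmSys g β) a.1)) W {c | c ≠ 0} := by
    funext a
    rw [fX_gm]
    unfold zetaM zetaS
    congr 1
    funext d
    rw [hM, inv_pow_eq, Nat.mul_comm]
  rw [← h2] at h1
  refine ratL_of_ratF (Lu K) (⟨a, ha⟩ : PA B) ?_ h1
  rintro q (hq | ⟨b, rfl⟩)
  · exact pairs_push β a ha q hq
  · have h3 : ∑ b', a b' * (Pi.single b 1 : Fin B → ℕ) b' = a b := by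
      simp [Pi.single_apply]
    simp only
    rw [h3]
    exact pairs_one β a ha b

/-- **The topological zeta functions.** -/
theorem fam_top {g : (t : Fin T) → κ t → MvPolynomial σ ℤ} (hν : ∀ i, 0 < ν i)
    (hg : RatS ℂ (dpr ν μ) (gSys g)) (ha : ∀ b, 0 < a b)
    {W : Set (Pt ℂ ((Σ b, ((t : {t // β t = b}) → κ t.1)) ⊕ σ))} (hW : Constr W)
    {R : Type} [CommRing R] [IsDomain R] (E : MK ℂ →+* R) (ε : R →+* ℂ)
    (h1 : ε (E ((Lu ℂ : (MK ℂ)ˣ) : MK ℂ)) = 1) (hu : E ((Lu ℂ : (MK ℂ)ˣ) : MK ℂ) ≠ 1) :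
    ∃ Z : RatFunc ℂ,
      IsTopZeta E ε (zetaM (map (Int.castRingHom ℂ) (gForm g β a)) W {c | c ≠ 0}) Z ∧
      (∀ Z', IsTopZeta E ε (zetaM (map (Int.castRingHom ℂ) (gForm g β a)) W {c | c ≠ 0})
        Z' → Z' = Z) ∧
      ∀ s₀ : ℂ, Z.denom.eval s₀ = 0 →
        ∃ q ∈ pairs (nuX ν B) (mulX μ β a), s₀ = (q.1 : ℂ) / q.2 :=
  topZeta_main E ε h1 hu (fun q hq => pairs_sign _ _ (by
    rintro (i | c)
    · exact hν i
    · exact one_pos) q hq) (fam_zetaL β a hg ha hW)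

/-- the roots -/
theorem fam_roots [DecidableEq σ] [∀ t, DecidableEq (κ t)]
    (hs : RootSys (fun t j => map (Int.castRingHom ℂ) (g t j)) ν μ) (q : ℤ × ℤ)
    (hq : q ∈ pairs (nuX ν B) (mulX μ β a)) :
    q.1 < 0 ∧ 0 < q.2 ∧
      (∀ b : Polynomial ℂ, IsBFunction (map (Int.castRingHom ℂ) (gForm g β a)) b →
        b.eval ((q.1 : ℂ) / q.2) = 0) ∧
      ∀ b : Polynomial ℂ, IsLocalBFunction (map (Int.castRingHom ℂ) (gForm g β a)) b →
        b.eval ((q.1 : ℂ) / q.2) = 0 := by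
  rw [map_gForm]
  exact ⟨(pairs_sign _ _ (nuX_pos hs) q hq).1,
    (pairs_sign _ _ (nuX_pos hs) q hq).2,
    fun b hb => pairs_roots _ _ (nuX_pos hs) b (fun i l hl => rootsX_global hs β a b hb i l hl) q hq,
    fun b hb => pairs_roots _ _ (nuX_pos hs) b (fun i l hl => rootsX_local hs β a b hb i l hl)
      q hq⟩

end fam

/-! ### ideals -/

section ideals

variable {σ : Type} [Fintype σ] {κ : Fin T → Type} [∀ t, Fintype (κ t)]
  {g : (t : Fin T) → κ t → MvPolynomial σ ℤ}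

/-- the jets of the product of the ideals -/
theorem jetF_fam (W : Set (Pt K σ)) (N : ℕ) :
    JetF (fun J : (t : Fin T) → κ t => map (Int.castRingHom K) (∏ t, g t (J t))) W N =
      JetF (fun c => map (Int.castRingHom K) (gX (gSys g) c)) W N := by
  refine jetF_congr _ _ (fun j => ?_) (fun c => ?_) W N
  · exact ⟨⟨fun t => ⟨t, j t⟩, fun t => rfl⟩, rfl⟩
  · have h1 : ∀ t, ∃ j : κ t, (gSys g).G (c.1 t) = g t j := by
      intro t
      have h2 : ∀ (l : Σ t, κ t) (t : Fin T), l.1 = t → ∃ j : κ t, g l.1 l.2 = g t j := by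
        rintro ⟨t', j⟩ t rfl
        exact ⟨j, rfl⟩
      exact h2 (c.1 t) t (c.2 t)
    choose j hj using h1
    refine ⟨j, ?_⟩
    congr 1
    exact Finset.prod_congr rfl fun t _ => hj t

variable {D : Type} {ν : D → ℕ} {μ : D → Fin T → ℕ}

/-- **The zeta functions of the products of the ideals.** -/
theorem fam_zetaJ [CharZero K] (hg : RatS K (dpr ν μ) (gSys g)) :
    zetaJ (fun J : (t : Fin T) → κ t => map (Int.castRingHom K) (∏ t, g t (J t))) ∈
      ratRing K {q | ∃ i : D, 0 < ∑ t, μ i t ∧ q = (-(ν i : ℤ), ((∑ t, μ i t : ℕ) : ℤ))} := by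
  obtain ⟨M, hL, hM⟩ := exists_meas K
  refine Subalgebra.mul_mem _ (rat_C (Lu K) _) (drop_mem ?_)
  have hW : Constr ({0} : Set (Pt K σ)) := constr_zero
  have h1 := hg.rt hL (fun _ => 1) (fun _ => Nat.one_pos) Empty (VI (gSys g) {0})
    (constr_VI (gSys g) hW) (gd_VI (gSys g) {0})
  rw [← zetaI_eq M _ (hv hL) (gSys g) hW] at h1
  have h2 : (PowerSeries.mk fun N => algebraMap (K0 K) (MK K) (cls (σ × Fin (N + 1))
      (JetF (fun J : (t : Fin T) → κ t => map (Int.castRingHom K) (∏ t, g t (J t))) {0} N)) *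
      (((Lu K) ^ (-((Fintype.card σ * N : ℕ) : ℤ)) : (MK K)ˣ) : MK K)) =
      PowerSeries.mk fun N => M.χ ((gSys g).ι × Fin (N + 1))
      (JetF (fun c => map (Int.castRingHom K) (gX (gSys g) c)) {0} N) *
        (((Lu K)⁻¹ : (MK K)ˣ) : MK K) ^ (N * Fintype.card (gSys g).ι) := by
    congr 1
    funext N
    rw [hM, inv_pow_eq, jetF_fam, Nat.mul_comm]
  rw [h2]
  refine rat_mono (Lu K) ?_ h1
  rintro q ⟨_, ⟨i, _, rfl⟩, h3, rfl⟩
  simp only [one_mul] at h3 ⊢
  exact ⟨i, h3, rfl⟩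

end ideals

end Pool.Agent.J6H7.BD
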