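import Pool.Agent.J6H7.BD.Lay

set_option autoImplicit false
set_option linter.unusedSectionVars false
set_option linter.unusedVariables false

/-! # Block diagonal matrices: the recursion -/

namespace Pool.Agent.J6H7.BD

open MvPolynomial Matrix Pool.Agent.W428.MOT Pool.Agent.TH192.DT Pool.Agent.TH192.MT
  Pool.Agent.TH192.MU Pool.Agent.TH192.PA

variable {B I0 J0 V : Type} {L : Lay B I0 J0 V} {I J I' J' : Type}

/-- the number of the rows in a block -/
noncomputable def rC (s : St L I J) (b : B) : ℕ := Nat.card {i : I // L.b1 (s.nI i) = b}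

/-- the number of the columns in a block -/
noncomputable def cC (s : St L I J) (b : B) : ℕ := Nat.card {j : J // L.b2 (s.nJ j) = b}

section count

variable {k : ℕ} {s : St L I J} {s' : St L I' J'} {e1 : Fin k ⊕ I' ≃ I}
    {e2 : Fin k ⊕ J' ≃ J} {b0 : B} (P : PvC s s' e1 e2 b0)

include P

theorem rC_piv [Finite I] [DecidableEq B] (b : B) :
    rC s b = (if b0 = b then k else 0) + rC s' b := by
  have hf : Finite (Fin k ⊕ I') := Finite.of_equiv I e1.symm
  have hf' : Finite I' := Finite.sum_right (Fin k)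
  have h1 : rC s b = Nat.card ({a : Fin k // L.b1 (s.nI (e1 (Sum.inl a))) = b} ⊕
      {x : I' // L.b1 (s.nI (e1 (Sum.inr x))) = b}) := by
    unfold rC
    refine Nat.card_congr ?_
    refine ((e1.subtypeEquiv fun x => ?_).symm).trans
      (Equiv.subtypeSum (p := fun x => L.b1 (s.nI (e1 x)) = b))
    exact Iff.rfl
  rw [h1, Nat.card_sum]
  congr 1
  · simp only [P.hb1]
    split_ifs with h
    · have : Nat.card {a : Fin k // b0 = b} = Nat.card (Fin k) :=
        Nat.card_congr (Equiv.subtypeUnivEquiv fun _ => h)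
      rw [this, Nat.card_eq_fintype_card, Fintype.card_fin]
    · have : IsEmpty {a : Fin k // b0 = b} := ⟨fun x => h x.2⟩
      exact Nat.card_of_isEmpty
  · unfold rC
    simp only [P.h1]

theorem cC_piv [Finite J] [DecidableEq B] (b : B) :
    cC s b = (if b0 = b then k else 0) + cC s' b := by
  have hf : Finite (Fin k ⊕ J') := Finite.of_equiv J e2.symm
  have hf' : Finite J' := Finite.sum_right (Fin k)
  have h1 : cC s b = Nat.card ({a : Fin k // L.b2 (s.nJ (e2 (Sum.inl a))) = b} ⊕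
      {x : J' // L.b2 (s.nJ (e2 (Sum.inr x))) = b}) := by
    unfold cC
    refine Nat.card_congr ?_
    refine ((e2.subtypeEquiv fun x => ?_).symm).trans
      (Equiv.subtypeSum (p := fun x => L.b2 (s.nJ (e2 x)) = b))
    exact Iff.rfl
  rw [h1, Nat.card_sum]
  congr 1
  · simp only [P.hb2]
    split_ifs with h
    · have : Nat.card {a : Fin k // b0 = b} = Nat.card (Fin k) :=
        Nat.card_congr (Equiv.subtypeUnivEquiv fun _ => h)
      rw [this, Nat.card_eq_fintype_card, Fintype.card_fin]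
    · have : IsEmpty {a : Fin k // b0 = b} := ⟨fun x => h x.2⟩
      exact Nat.card_of_isEmpty
  · unfold cC
    simp only [P.h2]

end count

/-! ### the number of the variables -/

section vars

variable (s : St L I J)

/-- the twin of a row of a symmetric block -/
theorem twin1 (i : I) (h : L.sy (L.b1 (s.nI i))) : ∃ j, L.tw (s.nI i) (s.nJ j) := by
  obtain ⟨j0, hj0⟩ := L.tw1 _ h
  obtain ⟨j, rfl⟩ := s.c1 i h j0 hj0
  exact ⟨j, hj0⟩

theorem twin2 (j : J) (h : L.sy (L.b2 (s.nJ j))) : ∃ i, L.tw (s.nI i) (s.nJ j) := by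
  obtain ⟨i0, hi0⟩ := L.tw2 _ h
  obtain ⟨i, rfl⟩ := s.c2 j h i0 hi0
  exact ⟨i, hi0⟩

/-- the block of a variable -/
noncomputable def bV (v : Vr s) : B := L.b1 (s.nI (pos s v).1)

theorem bV_eq (v : Vr s) (i : I) (j : J) (h : L.b1 (s.nI i) = L.b2 (s.nJ j))
    (hv : v.1 = L.ix (s.nI i) (s.nJ j)) : bV s v = L.b1 (s.nI i) := by
  have h1 := pos_on s v
  rcases L.inj _ _ _ _ h1 h ((pos_ix s v).symm.trans hv) with ⟨h2, _⟩ | ⟨_, h3, h4⟩
  · unfold bV
    rw [h2]
  · unfold bV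
    rw [L.tw_b _ _ h3, ← h]

open Classical in
theorem card_gen [Finite I] [Finite J] (b : B) (hb : ¬ L.sy b) :
    Nat.card {v : Vr s // bV s v = b} = rC s b * cC s b := by
  unfold rC cC
  rw [← Nat.card_prod]
  symm
  refine Nat.card_eq_of_bijective (fun q => ⟨⟨L.ix (s.nI q.1.1) (s.nJ q.2.1), q.1.1, q.2.1,
    q.1.2.trans q.2.2.symm, rfl⟩, ?_⟩) ⟨?_, ?_⟩
  · rw [bV_eq s _ q.1.1 q.2.1 (q.1.2.trans q.2.2.symm) rfl]
    exact q.1.2
  · rintro ⟨⟨i, hi⟩, ⟨j, hj⟩⟩ ⟨⟨i', hi'⟩, ⟨j', hj'⟩⟩ h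
    have h1 := congrArg (fun v => v.1.1) h
    simp only at h1
    rcases L.inj _ _ _ _ (hi.trans hj.symm) (hi'.trans hj'.symm) h1 with ⟨h2, h3⟩ | ⟨h2, _, _⟩
    · obtain rfl := s.iI h2
      obtain rfl := s.iJ h3
      rfl
    · rw [hi] at h2
      exact absurd h2 hb
  · rintro ⟨v, hv⟩
    refine ⟨(⟨(pos s v).1, hv⟩, ⟨(pos s v).2, ?_⟩), ?_⟩
    · rw [← pos_on s v]
      exact hv
    · exact Subtype.ext (Subtype.ext (pos_ix s v).symm)

open Classical in
theorem card_sym [Finite I] [Finite J] (b : B) (hb : L.sy b) :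
    Nat.card {v : Vr s // bV s v = b} = rC s b * (rC s b + 1) / 2 := by
  have hs : ∀ i : {i : I // L.b1 (s.nI i) = b}, L.sy (L.b1 (s.nI i.1)) := fun i => by
    rw [i.2]; exact hb
  choose t ht using fun i : {i : I // L.b1 (s.nI i) = b} => twin1 s i.1 (hs i)
  have hon : ∀ i j : {i : I // L.b1 (s.nI i) = b}, L.b1 (s.nI i.1) = L.b2 (s.nJ (t j)) := by
    intro i j
    rw [i.2, ← L.tw_b _ _ (ht j), j.2]
  let φ : {i : I // L.b1 (s.nI i) = b} → {i : I // L.b1 (s.nI i) = b} →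
      {v : Vr s // bV s v = b} := fun i j =>
    ⟨⟨L.ix (s.nI i.1) (s.nJ (t j)), i.1, t j, hon i j, rfl⟩, by
      rw [bV_eq s _ i.1 (t j) (hon i j) rfl]; exact i.2⟩
  have hφ : ∀ i j, φ i j = φ j i := by
    intro i j
    refine Subtype.ext (Subtype.ext ?_)
    exact L.symm _ _ _ _ (hs i) (hon i j) (ht i) (ht j)
  have h1 : Nat.card {v : Vr s // bV s v = b} =
      Nat.card (Sym2 {i : I // L.b1 (s.nI i) = b}) := by
    symm
    refine Nat.card_eq_of_bijective (Sym2.lift ⟨φ, hφ⟩) ⟨?_, ?_⟩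
    · intro x y
      induction x using Sym2.ind with
      | _ i j =>
        induction y using Sym2.ind with
        | _ i' j' =>
          intro h
          rw [Sym2.lift_mk, Sym2.lift_mk] at h
          have h2 : L.ix (s.nI i.1) (s.nJ (t j)) = L.ix (s.nI i'.1) (s.nJ (t j')) :=
            congrArg (fun v : {v : Vr s // bV s v = b} => v.1.1) h
          rw [Sym2.eq_iff]
          rcases L.inj _ _ _ _ (hon i j) (hon i' j') h2 with ⟨h3, h4⟩ | ⟨_, h3, h4⟩
          · left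
            refine ⟨Subtype.ext (s.iI h3), Subtype.ext (s.iI ?_)⟩
            have h5 := ht j
            rw [h4] at h5
            exact L.tw_r _ _ _ h5 (ht j')
          · right
            refine ⟨Subtype.ext (s.iI ?_), Subtype.ext (s.iI ?_)⟩
            · exact L.tw_r _ _ _ h3 (ht j')
            · exact (L.tw_r _ _ _ h4 (ht j)).symm
    · rintro ⟨v, hv⟩
      have h3 : L.b2 (s.nJ (pos s v).2) = b := by
        rw [← pos_on s v]
        exact hv
      obtain ⟨i', hi'⟩ := twin2 s (pos s v).2 (by rw [h3]; exact hb)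
      have hi'' : L.b1 (s.nI i') = b := (L.tw_b _ _ hi').trans h3
      refine ⟨s(⟨(pos s v).1, hv⟩, ⟨i', hi''⟩), ?_⟩
      rw [Sym2.lift_mk]
      refine Subtype.ext (Subtype.ext ?_)
      change L.ix (s.nI (pos s v).1) (s.nJ (t ⟨i', hi''⟩)) = v.1
      rw [← L.tw_l _ _ _ hi' (ht ⟨i', hi''⟩)]
      exact (pos_ix s v).symm
  have hf : Fintype {i : I // L.b1 (s.nI i) = b} := Fintype.ofFinite _
  rw [h1, Nat.card_eq_fintype_card, Sym2.card, Nat.choose_two_right, Nat.add_sub_cancel, rC,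
    Nat.card_eq_fintype_card, mul_comm]

end vars

/-- the codimensions -/
noncomputable def cdB (L : Lay B I0 J0 V) (m n : B → ℕ) (b : B) (d : ℕ) : ℕ :=
  open Classical in
  if L.sy b then (m b - d) * (m b - d + 1) / 2 else (m b - d) * (n b - d)

theorem card_Vr [Fintype B] [Finite V] (s : St L I J) [Finite I] [Finite J] (m n d : B → ℕ)
    (hr : ∀ b, rC s b = m b - d b) (hc : ∀ b, cC s b = n b - d b) :
    Fintype.card (Vr s) = ∑ b, cdB L m n b (d b) := by
  classical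
  rw [← Nat.card_eq_fintype_card, Nat.card_congr (Equiv.sigmaFiberEquiv (bV s)).symm,
    Nat.card_sigma]
  refine Finset.sum_congr rfl fun b _ => ?_
  unfold cdB
  by_cases hb : L.sy b
  · rw [if_pos hb, card_sym s b hb, hr]
  · rw [if_neg hb, card_gen s b hb, hr, hc]

/-! ### the states after the pivots -/

/-- a pivot of size one -/
def st1 (s : St L I J) (i : I) (j : J) (h : L.b1 (s.nI i) = L.b2 (s.nJ j))
    (ht : L.sy (L.b1 (s.nI i)) → L.tw (s.nI i) (s.nJ j)) :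
    St L {x : I // x ≠ i} {y : J // y ≠ j} where
  nI := fun x => s.nI x.1
  nJ := fun y => s.nJ y.1
  iI := s.iI.comp Subtype.val_injective
  iJ := s.iJ.comp Subtype.val_injective
  c1 := fun x hx j0 hj0 => by
    obtain ⟨y, hy⟩ := s.c1 x.1 hx j0 hj0
    refine ⟨⟨y, ?_⟩, hy⟩
    rintro rfl
    rw [← hy] at hj0
    have hb : L.b1 (s.nI x.1) = L.b1 (s.nI i) := by rw [L.tw_b _ _ hj0, h]
    rw [hb] at hx
    exact x.2 (s.iI (L.tw_r _ _ _ hj0 (ht hx)))
  c2 := fun y hy i0 hi0 => by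
    obtain ⟨x, hx⟩ := s.c2 y.1 hy i0 hi0
    refine ⟨⟨x, ?_⟩, hx⟩
    rintro rfl
    rw [← hx] at hi0
    have hb : L.b1 (s.nI x) = L.b2 (s.nJ y.1) := L.tw_b _ _ hi0
    rw [← hb] at hy
    exact y.2 (s.iJ (L.tw_l _ _ _ hi0 (ht hy)))

theorem pvc1 (s : St L I J) (i : I) (j : J) (h : L.b1 (s.nI i) = L.b2 (s.nJ j))
    (ht : L.sy (L.b1 (s.nI i)) → L.tw (s.nI i) (s.nJ j)) :
    PvC s (st1 s i j h ht) (eq1 i) (eq1 j) (L.b1 (s.nI i)) where
  h1 := fun x => rfl
  h2 := fun y => rfl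
  hb1 := fun a => rfl
  hb2 := fun a => h.symm
  hs := fun hs a => ht hs

/-- a pivot of size two -/
def st2 (s : St L I J) (i i' : I) (j j' : J) (h : L.tw (s.nI i) (s.nJ j))
    (h' : L.tw (s.nI i') (s.nJ j')) :
    St L {x : I // x ≠ i ∧ x ≠ i'} {y : J // y ≠ j ∧ y ≠ j'} where
  nI := fun x => s.nI x.1
  nJ := fun y => s.nJ y.1
  iI := s.iI.comp Subtype.val_injective
  iJ := s.iJ.comp Subtype.val_injective
  c1 := fun x hx j0 hj0 => by
    obtain ⟨y, hy⟩ := s.c1 x.1 hx j0 hj0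
    refine ⟨⟨y, ?_, ?_⟩, hy⟩
    · rintro rfl
      rw [← hy] at hj0
      exact x.2.1 (s.iI (L.tw_r _ _ _ hj0 h))
    · rintro rfl
      rw [← hy] at hj0
      exact x.2.2 (s.iI (L.tw_r _ _ _ hj0 h'))
  c2 := fun y hy i0 hi0 => by
    obtain ⟨x, hx⟩ := s.c2 y.1 hy i0 hi0
    refine ⟨⟨x, ?_, ?_⟩, hx⟩
    · rintro rfl
      rw [← hx] at hi0
      exact y.2.1 (s.iJ (L.tw_l _ _ _ hi0 h))
    · rintro rfl
      rw [← hx] at hi0
      exact y.2.2 (s.iJ (L.tw_l _ _ _ hi0 h'))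

theorem pvc2 (s : St L I J) (i i' : I) (j j' : J) (h : L.tw (s.nI i) (s.nJ j))
    (h' : L.tw (s.nI i') (s.nJ j')) (hi : i ≠ i') (hj : j ≠ j')
    (hb : L.b1 (s.nI i) = L.b1 (s.nI i')) :
    PvC s (st2 s i i' j j' h h') (eq2 i i' hi) (eq2 j j' hj) (L.b1 (s.nI i)) where
  h1 := fun x => rfl
  h2 := fun y => rfl
  hb1 := fun a => by
    fin_cases a
    · rfl
    · exact hb.symm
  hb2 := fun a => by
    fin_cases a
    · exact (L.tw_b _ _ h).symm
    · exact (L.tw_b _ _ h').symm.trans hb.symm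
  hs := fun hs a => by
    fin_cases a
    · exact h
    · exact h'

theorem hom_Mx [Finite V] (s : St L I J) {q : ℕ} (r : Fin q → I) (c : Fin q → J) :
    ((Mx s).submatrix r c).det.IsHomogeneous q := by
  refine hom_det _ fun i j => ?_
  rw [Matrix.submatrix_apply]
  by_cases h : L.b1 (s.nI (r i)) = L.b2 (s.nJ (c j))
  · rw [Mx_on s _ _ h]
    exact isHomogeneous_X _ _
  · rw [Mx_off s _ _ h]
    exact isHomogeneous_zero _ _ _

/-- the pairs -/
def DB [Fintype B] (L : Lay B I0 J0 V) {T : ℕ} (m n : B → ℕ) (p : Fin T → ℕ) :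
    Set (ℕ × (Fin T → ℕ)) :=
  {q | ∃ d : B → ℕ, (∀ b, d b ≤ m b ∧ d b ≤ n b) ∧ (∃ t, 0 < p t - ∑ b, d b) ∧
    q = (∑ b, cdB L m n b (d b), fun t => p t - ∑ b, d b)}

end Pool.Agent.J6H7.BD
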