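import Pool.Agent.J6H7.BD.Rec
import Pool.Agent.J6H7.BD.Rat

set_option autoImplicit false
set_option linter.unusedSectionVars false
set_option linter.unusedVariables false

/-! # Block diagonal matrices: the recursion -/

namespace Pool.Agent.J6H7.BD

open MvPolynomial Matrix Pool.Agent.W428.MOT Pool.Agent.TH192.DT Pool.Agent.TH192.MT
  Pool.Agent.TH192.MU Pool.Agent.TH192.PA

variable {B I0 J0 V : Type} {L : Lay B I0 J0 V}

theorem sum_upd [Fintype B] [DecidableEq B] (d : B → ℕ) (b0 : B) (k : ℕ) :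
    ∑ b, Function.update d b0 (d b0 + k) b = (∑ b, d b) + k := by
  rw [← Finset.add_sum_erase _ _ (Finset.mem_univ b0), Function.update_self,
    ← Finset.add_sum_erase _ d (Finset.mem_univ b0)]
  have h : ∑ b ∈ Finset.univ.erase b0, Function.update d b0 (d b0 + k) b =
      ∑ b ∈ Finset.univ.erase b0, d b := by
    refine Finset.sum_congr rfl fun b hb => ?_
    rw [Function.update_of_ne (Finset.ne_of_mem_erase hb)]
  rw [h]
  ring

theorem upd_card [DecidableEq B] {k : ℕ} {m d r r' : B → ℕ} (b0 : B)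
    (hd : ∀ b, d b ≤ m b) (hr : ∀ b, r b = m b - d b)
    (hrr : ∀ b, r b = (if b0 = b then k else 0) + r' b) :
    (∀ b, Function.update d b0 (d b0 + k) b ≤ m b) ∧
      ∀ b, r' b = m b - Function.update d b0 (d b0 + k) b := by
  have key : ∀ b, Function.update d b0 (d b0 + k) b ≤ m b ∧
      r' b = m b - Function.update d b0 (d b0 + k) b := by
    intro b
    have h1 := hd b
    have h2 := hr b
    have h3 := hrr b
    by_cases h : b0 = b
    · subst h
      rw [if_pos rfl] at h3
      rw [Function.update_self]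
      omega
    · rw [if_neg h] at h3
      rw [Function.update_of_ne (Ne.symm h)]
      omega
  exact ⟨fun b => (key b).1, fun b => (key b).2⟩

/-- **Rationality, for the states.** -/
theorem st_rat (K : Type) [Field K] {T : ℕ} [Fintype B] [Finite V] (m n : B → ℕ)
    (p : Fin T → ℕ) :
    ∀ (l : ℕ) (I J : Type) [Fintype I] [Fintype J] (s : St L I J) (d : B → ℕ),
      Fintype.card I = l → (∀ b, d b ≤ m b ∧ d b ≤ n b) → (∀ b, rC s b = m b - d b) →
      (∀ b, cC s b = n b - d b) →
      RatS K (DB L m n p) (mSys (Mx s) fun t => p t - ∑ b, d b) := by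
  classical
  intro l
  induction l using Nat.strong_induction_on with
  | _ l ih =>
    intro I J _ _ s d hl hd hr hc
    -- the reduced states
    have red : ∀ {k : ℕ} {I' J' : Type} [Fintype I'] [Fintype J'] (s' : St L I' J')
        (e1 : Fin k ⊕ I' ≃ I) (e2 : Fin k ⊕ J' ≃ J) (b0 : B) (P : PvC s s' e1 e2 b0),
        0 < k → RatS K (DB L m n p) (mSys (Mx s') fun t => p t - ∑ b, d b - k) := by
      intro k I' J' _ _ s' e1 e2 b0 P hk
      have h1 := Fintype.card_congr e1
      rw [Fintype.card_sum, Fintype.card_fin] at h1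
      obtain ⟨h2, h3⟩ := upd_card b0 (fun b => (hd b).1) hr (rC_piv P)
      obtain ⟨h4, h5⟩ := upd_card b0 (fun b => (hd b).2) hc (cC_piv P)
      have h6 := ih (Fintype.card I') (by omega) I' J' s' (Function.update d b0 (d b0 + k)) rfl
        (fun b => ⟨h2 b, h4 b⟩) h3 h5
      have h7 : (fun t => p t - ∑ b, Function.update d b0 (d b0 + k) b) =
          fun t => p t - ∑ b, d b - k := by
        funext t
        rw [sum_upd]
        omega
      rw [h7] at h6
      exact h6
    let K1 : Type := {q : I × J // L.b1 (s.nI q.1) = L.b2 (s.nJ q.2) ∧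
      (L.sy (L.b1 (s.nI q.1)) → L.tw (s.nI q.1) (s.nJ q.2))}
    let K2 : Type := {q : (I × I) × (J × J) // q.1.1 ≠ q.1.2 ∧
      L.b1 (s.nI q.1.1) = L.b1 (s.nI q.1.2) ∧ L.tw (s.nI q.1.1) (s.nJ q.2.1) ∧
      L.tw (s.nI q.1.2) (s.nJ q.2.2)}
    have hj2 : ∀ q : K2, q.1.2.1 ≠ q.1.2.2 := by
      rintro ⟨q, h1, h2, h3, h4⟩ h
      simp only at h
      rw [h] at h3
      exact h1 (s.iI (L.tw_r _ _ _ h3 h4))
    have P1 := fun q : K1 => pvc1 s q.1.1 q.1.2 q.2.1 q.2.2
    have P2 := fun q : K2 => pvc2 s q.1.1.1 q.1.1.2 q.1.2.1 q.1.2.2 q.2.2.2.1 q.2.2.2.2 q.2.1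
      (hj2 q) q.2.2.1
    have hp1 := fun q : K1 => piv_st (P1 q) (fun t => p t - ∑ b, d b)
    choose Q1 hQ1 using hp1
    have hp2 := fun q : K2 => piv_st (P2 q) (fun t => p t - ∑ b, d b)
    choose Q2 hQ2 using hp2
    refine ratS_step (fun t => p t - ∑ b, d b) ?_
      (B := K1 ⊕ K2) (fun b => match b with
        | Sum.inl q => mSys (Mx (st1 s q.1.1 q.1.2 q.2.1 q.2.2)) fun t => p t - ∑ b, d b - 1
        | Sum.inr q => mSys (Mx (st2 s q.1.1.1 q.1.1.2 q.1.2.1 q.1.2.2 q.2.2.2.1 q.2.2.2.2))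
            fun t => p t - ∑ b, d b - 2)
      (fun b => match b with
        | Sum.inl q => Q1 q
        | Sum.inr q => Q2 q) ?_ ?_ ?_
    · rintro ⟨t, r, c⟩
      exact hom_Mx s r c
    · rintro (q | q)
      · exact red _ _ _ _ (P1 q) one_pos
      · exact red _ _ _ _ (P2 q) two_pos
    · -- the pivots cover everything outside of the origin
      intro x hx
      obtain ⟨v, hv⟩ := Function.ne_iff.1 hx
      have hN := comp_map s x
      set i := (pos s v).1 with hi
      set j := (pos s v).2 with hj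
      have hon : L.b1 (s.nI i) = L.b2 (s.nJ j) := pos_on s v
      have hNv : (Mx s).map (ev x) i j ≠ 0 := by
        rw [map_on s x i j hon]
        have h1 : (⟨L.ix (s.nI i) (s.nJ j), i, j, hon, rfl⟩ : Vr s) = v :=
          Subtype.ext (pos_ix s v).symm
        rw [h1]
        exact hv
      -- a pivot of size one
      have one : ∀ (i : I) (j : J) (h : L.b1 (s.nI i) = L.b2 (s.nJ j))
          (h' : L.sy (L.b1 (s.nI i)) → L.tw (s.nI i) (s.nJ j)),
          (Mx s).map (ev x) i j ≠ 0 → ev (fun q => x ((Q1 ⟨(i, j), h, h'⟩).e (Sum.inl q)))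
            (Q1 ⟨(i, j), h, h'⟩).u ≠ 0 := by
        intro i j h h' hne
        rw [hQ1 ⟨(i, j), h, h'⟩ _ x, Matrix.det_fin_one]
        exact hne
      by_cases hsy : L.sy (L.b1 (s.nI i))
      · obtain ⟨j1, hj1⟩ := twin1 s i hsy
        obtain ⟨i1, hi1⟩ := twin2 s j (by rw [← hon]; exact hsy)
        have hb1 : L.b1 (s.nI i) = L.b2 (s.nJ j1) := L.tw_b _ _ hj1
        have hb2 : L.b1 (s.nI i1) = L.b2 (s.nJ j) := L.tw_b _ _ hi1
        by_cases h1 : (Mx s).map (ev x) i j1 = 0
        · by_cases h2 : (Mx s).map (ev x) i1 j = 0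
          · -- a pivot of size two
            have hne : i ≠ i1 := by
              intro h
              rw [← h] at h2
              exact hNv h2
            have hbb : L.b1 (s.nI i) = L.b1 (s.nI i1) := by rw [hb2, hon]
            refine ⟨Sum.inr ⟨((i, i1), (j1, j)), hne, hbb, hj1, hi1⟩, ?_⟩
            change ev (fun q => x ((Q2 ⟨((i, i1), (j1, j)), hne, hbb, hj1, hi1⟩).e (Sum.inl q)))
              (Q2 ⟨((i, i1), (j1, j)), hne, hbb, hj1, hi1⟩).u ≠ 0
            rw [hQ2 ⟨((i, i1), (j1, j)), hne, hbb, hj1, hi1⟩ _ x, Matrix.det_fin_two]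
            change (Mx s).map (ev x) i j1 * (Mx s).map (ev x) i1 j -
              (Mx s).map (ev x) i j * (Mx s).map (ev x) i1 j1 ≠ 0
            rw [h1, zero_mul, zero_sub, neg_ne_zero]
            have h3 := hN.2 i j i1 j1 hsy hon hj1 hi1
            rw [← h3]
            exact mul_ne_zero hNv hNv
          · exact ⟨Sum.inl ⟨(i1, j), hb2, fun _ => hi1⟩, one i1 j hb2 (fun _ => hi1) h2⟩
        · exact ⟨Sum.inl ⟨(i, j1), hb1, fun _ => hj1⟩, one i j1 hb1 (fun _ => hj1) h1⟩
      · exact ⟨Sum.inl ⟨(i, j), hon, fun h => absurd h hsy⟩,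
          one i j hon (fun h => absurd h hsy) hNv⟩
    · intro hN
      refine ⟨d, hd, hN, ?_⟩
      rw [card_Vr s m n d hr hc]

end Pool.Agent.J6H7.BD
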