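import Pool.Agent.J6H7.BD.Minor

set_option autoImplicit false
set_option linter.unusedSectionVars false
set_option linter.unusedVariables false

/-! # Block diagonal matrices: the roots of the Bernstein-Sato polynomials -/

namespace Pool.Agent.J6H7.BD

open MvPowerSeries Pool.Agent.W574.SM Pool.Agent.TH192.DT

namespace Bm

variable {A T1 T2 Q σ : Type} [Fintype A] [DecidableEq A] [Fintype T1] [DecidableEq T1]
  [Fintype T2] [DecidableEq T2] [Fintype Q] [DecidableEq Q] [Fintype σ] [DecidableEq σ]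
  (G : Bm A T1 T2 Q σ)

/-- the coordinates of the base point, divided by `lam` -/
noncomputable def dl (t : σ) : ℂ :=
  Matrix.fromBlocks (1 : Matrix A A ℂ) 0 0 (0 : Matrix T1 T2 ℂ)
    (G.surj t).choose (G.surj t).choose_spec.choose

theorem cc_mX (lam : ℂ) (hlam : lam ≠ 0) (x : A ⊕ T1) (y : A ⊕ T2) :
    constantCoeff ((G.D lam hlam).mX x y)
      = lam * Matrix.fromBlocks (1 : Matrix A A ℂ) 0 0 (0 : Matrix T1 T2 ℂ) x y := by
  have hv : ∀ x y, constantCoeff ((G.D lam hlam).v x y) = 0 := by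
    intro x y
    rw [Mt.v, map_mul, constantCoeff_X, mul_zero]
  rcases x with a | r <;> rcases y with b | c
  · have h := congrFun (congrFun (G.D lam hlam).cc_mA a) b
    rw [RingHom.mapMatrix_apply, Matrix.map_apply] at h
    change constantCoeff ((G.D lam hlam).mA a b) = _
    rw [h]
    rfl
  · rw [Matrix.fromBlocks_apply₁₂, Matrix.zero_apply, mul_zero]
    exact hv _ _
  · rw [Matrix.fromBlocks_apply₂₁, Matrix.zero_apply, mul_zero]
    exact hv _ _
  · rw [Matrix.fromBlocks_apply₂₂, Matrix.zero_apply, mul_zero]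
    change constantCoeff (((G.D lam hlam).mC * (G.D lam hlam).mA⁻¹ * (G.D lam hlam).mB) r c +
      X (G.D lam hlam).z * (G.D lam hlam).mY r c) = 0
    rw [map_add, map_mul, constantCoeff_X, zero_mul, add_zero, Matrix.mul_apply, map_sum]
    refine Finset.sum_eq_zero fun j _ => ?_
    rw [map_mul]
    have h1 : constantCoeff ((G.D lam hlam).mB j c) = 0 := hv _ _
    rw [h1, mul_zero]

theorem cc_xi {lam : ℂ} {hlam : lam ≠ 0} {ξ : σ → MvPowerSeries σ ℂ}
    (hξ : (G.D lam hlam).IsChart ξ) (t : σ) : constantCoeff (ξ t) = lam * G.dl t := by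
  have h0 := (G.surj t).choose_spec.choose_spec.1
  have h1 := (G.surj t).choose_spec.choose_spec.2
  have h2 := hξ (G.surj t).choose (G.surj t).choose_spec.choose
  have h3 : (G.D lam hlam).ix (G.surj t).choose (G.surj t).choose_spec.choose = t := h1.symm
  rw [h3] at h2
  have h4 : ((G.D lam hlam).sg (G.surj t).choose (G.surj t).choose_spec.choose) = 1 :=
    if_pos h0
  rw [h4, map_one, one_mul] at h2
  rw [← h2, G.cc_mX, dl]

variable {m n : ℕ} (e1 : A ⊕ T1 ≃ Fin m) (e2 : A ⊕ T2 ≃ Fin n)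
  (M : Matrix (Fin m) (Fin n) (MvPolynomial σ ℂ))
  (hM : ∀ x y, G.on x y → M (e1 x) (e2 y) = MvPolynomial.X (G.ix x y))
  (hM0 : ∀ x y, ¬ G.on x y → M (e1 x) (e2 y) = 0)

include hM hM0

theorem fam_eq (p : ℕ) (r : Fin p → A ⊕ T1) (c : Fin p → A ⊕ T2) :
    G.fam p (r, c) = (M.submatrix (fun i => e1 (r i)) (fun i => e2 (c i))).det := by
  classical
  rw [fam]
  congr 1
  ext1 i j
  rw [Matrix.submatrix_apply, Matrix.submatrix_apply, Mt.mP, Matrix.of_apply]
  change MvPolynomial.C (if G.on (r i) (c j) then (1 : ℂ) else 0) * MvPolynomial.X _ = _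
  split_ifs with h
  · rw [hM _ _ h, map_one, one_mul]
    rfl
  · rw [hM0 _ _ h, map_zero, zero_mul]

theorem fam_mem (p : ℕ) (rc : (Fin p → A ⊕ T1) × (Fin p → A ⊕ T2)) :
    G.fam p rc ∈ Submodule.span ℂ (Set.range (minorsOf M p)) := by
  rw [← Prod.mk.eta (p := rc), G.fam_eq e1 e2 M hM hM0]
  exact det_mem_span M _ _

theorem minorsOf_mem (p : ℕ) (rc : (Fin p ↪o Fin m) × (Fin p ↪o Fin n)) :
    minorsOf M p rc ∈ Submodule.span ℂ (Set.range (G.fam p)) := by
  have h : minorsOf M p rc = G.fam p (fun i => e1.symm (rc.1 i), fun i => e2.symm (rc.2 i)) := by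
    rw [G.fam_eq e1 e2 M hM hM0]
    simp only [Equiv.apply_symm_apply]
    rfl
  rw [h]
  exact Submodule.subset_span ⟨_, rfl⟩

/-- **The roots.** -/
theorem roots {τ : Type} [Fintype τ] [DecidableEq τ] (p : τ → ℕ)
    (hp : ∀ t, p t ≤ Fintype.card A + Fintype.card Q) (t0 : τ) (h0 : Fintype.card A < p t0)
    (h1 : p t0 < Fintype.card A + Fintype.card Q) (b : Polynomial ℂ) (H : MvPolynomial σ ℂ)
    (hb : Pool.Agent.W574.LM.IsLocEq H (prodFam fun t => minorsOf M (p t)) b)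
    (hH : MvPolynomial.constantCoeff H ≠ 0)
    (hchart : ∀ (lam : ℂ) (hlam : lam ≠ 0), ∃ ξ, (G.D lam hlam).IsChart ξ)
    (l : ℕ) (hl : l < ∑ t, (p t - Fintype.card A)) (ν : ℕ)
    (hν : Nat.card {t // ∃ r c, G.on (Sum.inr r) (Sum.inr c) ∧
      t = G.ix (Sum.inr r) (Sum.inr c)} = ν) :
    b.eval (-((ν : ℂ) + l) / (∑ t, (p t - Fintype.card A) : ℕ)) = 0 := by
  classical
  obtain ⟨lam, hlam, hlH⟩ := exists_scale H hH G.dl
  obtain ⟨ξ, hξ⟩ := hchart lam hlam
  have hord : ∀ q, q ≤ Fintype.card A + Fintype.card Q →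
      HasOrd (G.D lam hlam).z ξ (q - Fintype.card A) (minorsOf M q) := fun q hq =>
    HasOrd_of_span (G.hasOrd_fam lam hlam hξ q hq) (G.fam_mem e1 e2 M hM hM0 q)
      (G.minorsOf_mem e1 e2 M hM hM0 q)
  obtain ⟨_, F, _, U, hU, hFU⟩ := hord (Fintype.card A + 1) (by omega)
  rw [Nat.add_sub_cancel_left] at hFU
  refine (G.D lam hlam).main hξ _ b H hb ?_ _ l hl
    (hasOrd_prod _ ξ _ _ fun t => hord (p t) (hp t)) ?_ F U hU hFU ν ?_
  · rw [cc_aeval]
    have h2 : (fun t => constantCoeff (ξ t)) = fun t => lam * G.dl t := by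
      funext t
      exact G.cc_xi hξ t
    rw [h2]
    exact hlH
  · intro t ht hexc
    refine gives_prod _ ξ _ _ (fun t => hord (p t) (hp t)) t0 t ?_
    exact Gives_of_span (G.gives_fam lam hlam hξ (p t0) h0 h1 t ht hexc)
      (G.fam_mem e1 e2 M hM hM0 _)
  · rw [← hν, ← Nat.card_eq_fintype_card]
    refine Nat.card_congr (Equiv.subtypeEquivRight fun t => ?_)
    constructor
    · rintro ⟨r, c, h', h⟩
      exact ⟨r, c, by by_contra hn; exact h' (if_neg hn), h⟩
    · rintro ⟨r, c, h', h⟩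
      refine ⟨r, c, ?_, h⟩
      change (if G.on (Sum.inr r) (Sum.inr c) then (1 : ℂ) else 0) ≠ 0
      rw [if_pos h']
      exact one_ne_zero

end Bm

end Pool.Agent.J6H7.BD
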