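import Pool.Agent.J6H7.BD.Rec2
import Pool.Agent.J6H7.BD.Main

set_option autoImplicit false
set_option linter.unusedSectionVars false
set_option linter.unusedVariables false

/-! # The zeta functions of the forms over the determinantal ideals of block diagonal matrices -/

namespace Pool.Agent.J6H7.BD

open MvPolynomial Pool.Agent.W428.MOT Pool.Agent.TH192.DT Pool.Agent.TH192.MT
  Pool.Agent.TH192.MU Pool.Agent.TH192.PA Pool.Agent.R852.MX Pool.Agent.H628R4.TP
  Pool.Agent.W574.SM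

namespace Blk

/-- the symmetric blocks -/
def isSym : Blk → Prop
  | gen _ _ => False
  | sym _ => True

theorem sq (S : Blk) (h : S.isSym) : S.rows = S.cols := by
  cases S with
  | gen m n => exact absurd h id
  | sym n => rfl

theorem place_inj (S : Blk) (i i' : Fin S.rows) (j j' : Fin S.cols)
    (h : S.place i j = S.place i' j') :
    (i = i' ∧ j = j') ∨ (S.isSym ∧ (i : ℕ) = (j' : ℕ) ∧ (i' : ℕ) = (j : ℕ)) := by
  cases S with
  | gen m n =>
    have h' : (i, j) = (i', j') := h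
    rw [Prod.mk.injEq] at h'
    exact Or.inl h'
  | sym n =>
    have h' := (@Sym2.eq_iff (Fin n) i j i' j').1 h
    rcases h' with h' | h'
    · exact Or.inl h'
    · exact Or.inr ⟨trivial, congrArg Fin.val h'.1, congrArg Fin.val h'.2.symm⟩

theorem place_symm (S : Blk) (h : S.isSym) (i i' : Fin S.rows) (j j' : Fin S.cols)
    (h1 : (i : ℕ) = (j' : ℕ)) (h2 : (i' : ℕ) = (j : ℕ)) : S.place i j = S.place i' j' := by
  cases S with
  | gen m n => exact absurd h id
  | sym n =>
    exact (@Sym2.eq_iff (Fin n) i j i' j').2 (Or.inr ⟨Fin.ext h1, Fin.ext h2.symm⟩)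

theorem place_surj (S : Blk) (v : S.Var) : ∃ i j, S.place i j = v := by
  cases S with
  | gen m n => exact ⟨v.1, v.2, rfl⟩
  | sym n =>
    induction v using Sym2.ind with
    | _ x y => exact ⟨x, y, rfl⟩

end Blk

variable {k : ℕ} (S : Fin k → Blk)

open Classical in
/-- The layout of the block diagonal matrix. -/
noncomputable def layS : Lay (Fin k) (Σ b, Fin (S b).rows) (Σ b, Fin (S b).cols)
    (Option (BVar S)) where
  b1 := fun i => i.1
  b2 := fun j => j.1
  ix := fun i j => if h : i.1 = j.1 then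
    some ⟨i.1, (S i.1).place i.2 (Fin.cast (congrArg (fun b => (S b).cols) h.symm) j.2)⟩ else none
  sy := fun b => (S b).isSym
  tw := fun i j => i.1 = j.1 ∧ (i.2 : ℕ) = (j.2 : ℕ)
  tw_b := fun i j h => h.1
  tw_l := by
    rintro ⟨b, i⟩ ⟨b', j⟩ ⟨b'', j'⟩ ⟨h1, h2⟩ ⟨h3, h4⟩
    obtain rfl : b = b' := h1
    obtain rfl : b = b'' := h3
    exact congrArg (Sigma.mk b) (Fin.ext (h2.symm.trans h4))
  tw_r := by
    rintro ⟨b, i⟩ ⟨b', i'⟩ ⟨b'', j⟩ ⟨h1, h2⟩ ⟨h3, h4⟩
    obtain rfl : b = b'' := h1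
    obtain rfl : b' = b := h3
    exact congrArg (Sigma.mk b') (Fin.ext (h2.trans h4.symm))
  tw1 := by
    rintro ⟨b, i⟩ h
    exact ⟨⟨b, Fin.cast ((S b).sq h) i⟩, rfl, rfl⟩
  tw2 := by
    rintro ⟨b, j⟩ h
    exact ⟨⟨b, Fin.cast ((S b).sq h).symm j⟩, rfl, rfl⟩
  inj := by
    rintro ⟨b, i⟩ ⟨c, j⟩ ⟨b', i'⟩ ⟨c', j'⟩ h h' h1
    obtain rfl : b = c := h
    obtain rfl : b' = c' := h'
    rw [dif_pos rfl, dif_pos rfl, Option.some.injEq, Sigma.mk.injEq] at h1
    obtain ⟨h2, h3⟩ := h1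
    obtain rfl : b = b' := h2
    rcases (S b).place_inj _ _ _ _ (eq_of_heq h3) with ⟨h4, h5⟩ | ⟨h4, h5, h6⟩
    · left
      exact ⟨congrArg (Sigma.mk b) h4, congrArg (Sigma.mk b) h5⟩
    · exact Or.inr ⟨h4, ⟨rfl, h5⟩, ⟨rfl, h6⟩⟩
  symm := by
    rintro ⟨b, i⟩ ⟨c, j⟩ ⟨b', i'⟩ ⟨c', j'⟩ hs h ⟨h1, h2⟩ ⟨h3, h4⟩
    obtain rfl : b = c := h
    obtain rfl : b = c' := h1
    obtain rfl : b' = b := h3
    rw [dif_pos rfl, dif_pos rfl]
    congr 2
    exact (S b').place_symm hs _ _ _ _ h2 h4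

theorem layS_on (b : Fin k) (i : Fin (S b).rows) (j : Fin (S b).cols) :
    (layS S).ix ⟨b, i⟩ ⟨b, j⟩ = some ⟨b, (S b).place i j⟩ := by
  change dite _ _ _ = _
  rw [dif_pos rfl]
  rfl

theorem layS_some (i : Σ b, Fin (S b).rows) (j : Σ b, Fin (S b).cols)
    (h : (layS S).b1 i = (layS S).b2 j) : ∃ w : BVar S, some w = (layS S).ix i j := by
  obtain ⟨b, i⟩ := i
  obtain ⟨b', j⟩ := j
  obtain rfl : b = b' := h
  exact ⟨_, (layS_on S b i j).symm⟩

/-- The whole matrix. -/
def topSt : St (layS S) (Fin (∑ b, (S b).rows)) (Fin (∑ b, (S b).cols)) where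
  nI := finSigmaFinEquiv.symm
  nJ := finSigmaFinEquiv.symm
  iI := finSigmaFinEquiv.symm.injective
  iJ := finSigmaFinEquiv.symm.injective
  c1 := fun i _ j0 _ => ⟨finSigmaFinEquiv j0, finSigmaFinEquiv.symm_apply_apply j0⟩
  c2 := fun j _ i0 _ => ⟨finSigmaFinEquiv i0, finSigmaFinEquiv.symm_apply_apply i0⟩

theorem rC_top (b : Fin k) : rC (topSt S) b = (S b).rows := by
  unfold rC
  have e : {i : Fin (∑ b, (S b).rows) // (layS S).b1 ((topSt S).nI i) = b} ≃ Fin (S b).rows :=
    (finSigmaFinEquiv.symm.subtypeEquiv fun i => Iff.rfl).trans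
      (Equiv.sigmaSubtype (β := fun b => Fin (S b).rows) b)
  rw [Nat.card_congr e, Nat.card_eq_fintype_card, Fintype.card_fin]

theorem cC_top (b : Fin k) : cC (topSt S) b = (S b).cols := by
  unfold cC
  have e : {j : Fin (∑ b, (S b).cols) // (layS S).b2 ((topSt S).nJ j) = b} ≃ Fin (S b).cols :=
    (finSigmaFinEquiv.symm.subtypeEquiv fun i => Iff.rfl).trans
      (Equiv.sigmaSubtype (β := fun b => Fin (S b).cols) b)
  rw [Nat.card_congr e, Nat.card_eq_fintype_card, Fintype.card_fin]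

theorem cdB_top (b : Fin k) (d : ℕ) :
    cdB (layS S) (fun b => (S b).rows) (fun b => (S b).cols) b d = (S b).codim d := by
  unfold cdB
  by_cases h : (layS S).sy b
  · rw [if_pos h]
    have h' : (S b).isSym := h
    change ((S b).rows - d) * ((S b).rows - d + 1) / 2 = (S b).codim d
    generalize S b = R at h' ⊢
    cases R with
    | gen m n => exact absurd h' id
    | sym n => rfl
  · rw [if_neg h]
    have h' : ¬ (S b).isSym := h
    change ((S b).rows - d) * ((S b).cols - d) = (S b).codim d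
    generalize S b = R at h' ⊢
    cases R with
    | gen m n => rfl
    | sym n => exact absurd trivial h'

theorem DB_top {T : ℕ} (p : Fin T → ℕ) (hp : ∀ t, p t < rkS S) :
    DB (layS S) (fun b => (S b).rows) (fun b => (S b).cols) p ⊆
      dpr (fun d : Loc S => d.codim) fun d t => p t - d.sum := by
  rintro q ⟨d, hd, ⟨t, ht⟩, rfl⟩
  have hrk : ∀ b, d b ≤ (S b).rk := fun b => le_min (hd b).1 (hd b).2
  have hex : ∃ b, d b < (S b).rk := by
    by_contra h
    push Not at h
    have h1 : ∑ b, d b = rkS S := Finset.sum_congr rfl fun b _ => le_antisymm (hrk b) (h b)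
    have h2 := hp t
    omega
  let d' : Loc S := ⟨fun b => ⟨d b, Nat.lt_succ_of_le (hrk b)⟩, hex⟩
  refine ⟨d', ⟨t, ht⟩, ?_⟩
  refine Prod.ext ?_ rfl
  change ∑ b, cdB (layS S) (fun b => (S b).rows) (fun b => (S b).cols) b (d b) =
    ∑ b, (S b).codim (d b)
  exact Finset.sum_congr rfl fun b _ => cdB_top S b (d b)

theorem blockMatrixZ_map : (blockMatrixZ S).map (map (Int.castRingHom ℂ)) = blockMatrix S := by
  unfold blockMatrixZ blockMatrix
  rw [← Matrix.submatrix_map, Matrix.blockDiagonal'_map _ _ (map_zero _)]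
  congr 2
  funext b
  ext1 i j
  exact map_X _ _

theorem minors_map (p : ℕ) (j : BIdx S p) :
    map (Int.castRingHom ℂ) (minorsOf (blockMatrixZ S) p j) = minorsOf (blockMatrix S) p j := by
  unfold minorsOf
  rw [RingHom.map_det, ← blockMatrixZ_map]
  rfl

/-- the variables of the whole matrix -/
noncomputable def topE : Vr (topSt S) ≃ BVar S :=
  (Equiv.ofBijective (fun v : BVar S => (⟨some v, by
    obtain ⟨b, v⟩ := v
    obtain ⟨i, j, rfl⟩ := (S b).place_surj v
    refine ⟨finSigmaFinEquiv ⟨b, i⟩, finSigmaFinEquiv ⟨b, j⟩, ?_, ?_⟩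
    · change (finSigmaFinEquiv.symm (finSigmaFinEquiv _)).1 =
        (finSigmaFinEquiv.symm (finSigmaFinEquiv _)).1
      rw [Equiv.symm_apply_apply, Equiv.symm_apply_apply]
    · change _ = (layS S).ix (finSigmaFinEquiv.symm (finSigmaFinEquiv _))
        (finSigmaFinEquiv.symm (finSigmaFinEquiv _))
      rw [Equiv.symm_apply_apply, Equiv.symm_apply_apply, layS_on]⟩ : Vr (topSt S))) ⟨by
    intro v w h
    exact Option.some.inj (congrArg Subtype.val h), by
    rintro ⟨v, i, j, h, rfl⟩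
    obtain ⟨w, hw⟩ := layS_some S ((topSt S).nI i) ((topSt S).nJ j) h
    exact ⟨w, Subtype.ext hw⟩⟩).symm

theorem topE_spec (v : Vr (topSt S)) : some (topE S v) = v.1 := by
  have h := (topE S).symm_apply_apply v
  exact congrArg Subtype.val h

theorem map_top {A : Type} [CommRing A] (x : BVar S → A) :
    (blockMatrixZ S).map (ev x) = (Mx (topSt S)).map (ev fun y => x (topE S y)) := by
  ext1 i j
  by_cases h : (layS S).b1 ((topSt S).nI i) = (layS S).b2 ((topSt S).nJ j)
  · rw [map_on (topSt S) _ i j h]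
    have h1 := topE_spec S ⟨(layS S).ix ((topSt S).nI i) ((topSt S).nJ j), i, j, h, rfl⟩
    rw [Matrix.map_apply]
    unfold blockMatrixZ
    rw [Matrix.submatrix_apply]
    change ev x (Matrix.blockDiagonal' _ ((topSt S).nI i) ((topSt S).nJ j)) = _
    generalize (topE S ⟨(layS S).ix ((topSt S).nI i) ((topSt S).nJ j), i, j, h, rfl⟩) = w at h1 ⊢
    simp only at h1
    generalize (topSt S).nI i = i' at h h1 ⊢
    generalize (topSt S).nJ j = j' at h h1 ⊢
    obtain ⟨b, i'⟩ := i'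
    obtain ⟨b', j'⟩ := j'
    obtain rfl : b = b' := h
    rw [layS_on, Option.some.injEq] at h1
    rw [Matrix.blockDiagonal'_apply_eq, Matrix.of_apply, ev_X, h1]
  · rw [map_off (topSt S) _ i j h, Matrix.map_apply]
    unfold blockMatrixZ
    rw [Matrix.submatrix_apply]
    change ev x (Matrix.blockDiagonal' _ ((topSt S).nI i) ((topSt S).nJ j)) = _
    generalize (topSt S).nI i = i' at h ⊢
    generalize (topSt S).nJ j = j' at h ⊢
    obtain ⟨b, i'⟩ := i'
    obtain ⟨b', j'⟩ := j'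
    have hb : b ≠ b' := h
    rw [Matrix.blockDiagonal'_apply_ne _ _ _ hb, map_zero]

/-- the generators -/
noncomputable def bdG {T : ℕ} (p : Fin T → ℕ) (t : Fin T) (j : BIdx S (p t)) :
    MvPolynomial (BVar S) ℤ := minorsOf (blockMatrixZ S) (p t) j

/-- **The zeta functions of the minors are rational.** -/
theorem bd_rat (K : Type) [Field K] {T : ℕ} (p : Fin T → ℕ) (hp : ∀ t, p t < rkS S) :
    RatS K (dpr (fun d : Loc S => d.codim) fun d t => p t - d.sum) (gSys (bdG S p)) := by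
  have h1 := st_rat K (L := layS S) (fun b => (S b).rows) (fun b => (S b).cols) p _ _ _
    (topSt S) (fun _ => 0) rfl (fun b => ⟨Nat.zero_le _, Nat.zero_le _⟩)
    (fun b => by rw [rC_top]; rfl) (fun b => by rw [cC_top]; rfl)
  have h0 : (fun t => p t - ∑ _b : Fin k, 0) = p := by
    funext t
    simp
  rw [h0] at h1
  refine ratS_mono (DB_top S p hp) (ratS_change (Xs := gSys (bdG S p))
    (Ys := mSys (Mx (topSt S)) p) (topE S) ?_ h1)
  intro A _ x t
  refine Eq.trans ?_ (fI_mSys (Mx (topSt S)) p (fun y => x (topE S y)) t).symm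
  rw [← map_top]
  have key : ∀ l : (gSys (bdG S p)).Λ, ev x ((gSys (bdG S p)).G l) =
      (((blockMatrixZ S).map (ev x)).submatrix l.2.1 l.2.2).det := by
    intro l
    exact RingHom.map_det (ev x) ((blockMatrixZ S).submatrix l.2.1 l.2.2)
  refine le_antisymm (Ideal.span_le.2 ?_) (minI_sorted _ _ fun r c => ?_)
  · rintro y ⟨l, rfl, rfl⟩
    rw [SetLike.mem_coe, key l]
    exact det_mem _ _ _
  · exact Ideal.subset_span ⟨⟨t, (r, c)⟩, rfl, (key ⟨t, (r, c)⟩).symm⟩

/-- the roots -/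
theorem bd_sys {T : ℕ} (p : Fin T → ℕ) (hp : ∀ t, p t < rkS S) :
    RootSys (σ := BVar S) (κ := fun t => BIdx S (p t))
      (fun t j => map (Int.castRingHom ℂ) (bdG S p t j))
      (fun d : Loc S => d.codim) (fun d t => p t - d.sum) := by
  have h : (fun t j => map (Int.castRingHom ℂ) (bdG S p t j)) =
      fun t => minorsOf (blockMatrix S) (p t) := by
    funext t j
    exact minors_map S (p t) j
  rw [h]
  exact sysB S p hp

theorem bdFormZ_eq {T B : ℕ} (p : Fin T → ℕ) (β : Fin T → Fin B) (a : Fin B → ℕ) :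
    bdFormZ S p β a = gForm (bdG S p) β a := rfl

end Pool.Agent.J6H7.BD
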