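import Pool.Agent.J6H7.BD.ChartEx
import Pool.Agent.J6H7.BD.Defs
import Pool.Agent.TH192.DT.Types

set_option autoImplicit false
set_option linter.unusedSectionVars false
set_option linter.unusedVariables false

/-! # Block diagonal matrices: generic and symmetric blocks -/

namespace Pool.Agent.J6H7.BD

open Pool.Agent.W574.SM Pool.Agent.TH192.DT

/-- an ordering of the rows -/
noncomputable def eqv (n r d : ℕ) (h : d ≤ r) (h' : r ≤ n) :
    Fin d ⊕ (Fin (r - d) ⊕ Fin (n - r)) ≃ Fin n :=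
  Fintype.equivOfCardEq (by simp; omega)

/-- the data of a generic block -/
noncomputable def gbGen (m n r d : ℕ) (hd : d ≤ r) (hm : r ≤ m) (hn : r ≤ n) :
    Gb (Fin d) (Fin (r - d) ⊕ Fin (m - r)) (Fin (r - d) ⊕ Fin (n - r)) (Fin (r - d))
      (Fin m × Fin n) where
  ix := fun x y => (eqv m r d hd hm x, eqv n r d hd hn y)
  u := Sum.inl
  w := Sum.inl
  u_inj := Sum.inl_injective
  w_inj := Sum.inl_injective
  surj := fun t => ⟨(eqv m r d hd hm).symm t.1, (eqv n r d hd hn).symm t.2, by simp⟩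
  exc := fun r c x y h => by
    rw [Prod.mk.injEq, (eqv _ _ _ _ _).injective.eq_iff, (eqv _ _ _ _ _).injective.eq_iff] at h
    exact ⟨⟨r, h.1.symm⟩, ⟨c, h.2.symm⟩⟩
  dg := fun i x y h => by
    rw [Prod.mk.injEq, (eqv _ _ _ _ _).injective.eq_iff, (eqv _ _ _ _ _).injective.eq_iff] at h
    exact ⟨h.1.symm, h.2.symm⟩
  dgA := fun i x y h => by
    rw [Prod.mk.injEq, (eqv _ _ _ _ _).injective.eq_iff, (eqv _ _ _ _ _).injective.eq_iff] at h
    exact ⟨h.1.symm, h.2.symm⟩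
  chart := fun S _ N z hN x y x' y' h => by
    rw [Prod.mk.injEq, (eqv _ _ _ _ _).injective.eq_iff, (eqv _ _ _ _ _).injective.eq_iff] at h
    rw [h.1, h.2]

theorem transpose_chart {A T S : Type} [Fintype A] [DecidableEq A] [Fintype T] [DecidableEq T]
    [CommRing S] (N : Matrix (A ⊕ T) (A ⊕ T) S) (z : S) (hN : N.transpose = N) :
    (Matrix.fromBlocks N.toBlocks₁₁ N.toBlocks₁₂ N.toBlocks₂₁
      (N.toBlocks₂₁ * N.toBlocks₁₁⁻¹ * N.toBlocks₁₂ + z • N.toBlocks₂₂)).transpose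
    = Matrix.fromBlocks N.toBlocks₁₁ N.toBlocks₁₂ N.toBlocks₂₁
      (N.toBlocks₂₁ * N.toBlocks₁₁⁻¹ * N.toBlocks₁₂ + z • N.toBlocks₂₂) := by
  have h : ∀ x y, N x y = N y x := fun x y => (congrFun (congrFun hN y) x)
  have h11 : N.toBlocks₁₁.transpose = N.toBlocks₁₁ := by
    ext1 i j; exact h _ _
  have h12 : N.toBlocks₁₂.transpose = N.toBlocks₂₁ := by
    ext1 i j; exact h _ _
  have h21 : N.toBlocks₂₁.transpose = N.toBlocks₁₂ := by
    ext1 i j; exact h _ _
  have h22 : N.toBlocks₂₂.transpose = N.toBlocks₂₂ := by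
    ext1 i j; exact h _ _
  rw [Matrix.fromBlocks_transpose, Matrix.transpose_add, Matrix.transpose_smul,
    Matrix.transpose_mul, Matrix.transpose_mul, Matrix.transpose_nonsing_inv, h11, h12, h21, h22,
    Matrix.mul_assoc]

/-- the data of a symmetric block -/
noncomputable def gbSym (n r d : ℕ) (hd : d ≤ r) (hn : r ≤ n) :
    Gb (Fin d) (Fin (r - d) ⊕ Fin (n - r)) (Fin (r - d) ⊕ Fin (n - r)) (Fin (r - d))
      (Sym2 (Fin n)) where
  ix := fun x y => s(eqv n r d hd hn x, eqv n r d hd hn y)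
  u := Sum.inl
  w := Sum.inl
  u_inj := Sum.inl_injective
  w_inj := Sum.inl_injective
  surj := fun t => by
    induction t using Sym2.ind with
    | _ x y => exact ⟨(eqv n r d hd hn).symm x, (eqv n r d hd hn).symm y, by simp⟩
  exc := fun r c x y h => by
    rw [Sym2.eq_iff, (eqv _ _ _ _ _).injective.eq_iff, (eqv _ _ _ _ _).injective.eq_iff,
      (eqv _ _ _ _ _).injective.eq_iff, (eqv _ _ _ _ _).injective.eq_iff] at h
    rcases h with h | h
    · exact ⟨⟨r, h.1.symm⟩, ⟨c, h.2.symm⟩⟩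
    · exact ⟨⟨c, h.2.symm⟩, ⟨r, h.1.symm⟩⟩
  dg := fun i x y h => by
    rw [Sym2.eq_iff, (eqv _ _ _ _ _).injective.eq_iff, (eqv _ _ _ _ _).injective.eq_iff] at h
    rcases h with h | h
    · exact ⟨h.1.symm, h.2.symm⟩
    · exact ⟨h.2.symm, h.1.symm⟩
  dgA := fun i x y h => by
    rw [Sym2.eq_iff, (eqv _ _ _ _ _).injective.eq_iff, (eqv _ _ _ _ _).injective.eq_iff] at h
    rcases h with h | h
    · exact ⟨h.1.symm, h.2.symm⟩
    · exact ⟨h.2.symm, h.1.symm⟩
  chart := fun S _ N z hN => by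
    have hT : N.transpose = N := by
      ext1 x y
      exact hN _ _ _ _ Sym2.eq_swap
    have h2 := transpose_chart N z hT
    intro x y x' y' h
    rw [Sym2.eq_iff, (eqv _ _ _ _ _).injective.eq_iff, (eqv _ _ _ _ _).injective.eq_iff,
      (eqv _ _ _ _ _).injective.eq_iff, (eqv _ _ _ _ _).injective.eq_iff] at h
    rcases h with ⟨rfl, rfl⟩ | ⟨rfl, rfl⟩
    · rfl
    · exact congrFun (congrFun h2 y) x

theorem card_gbGen (m n r d : ℕ) (hd : d ≤ r) (hm : r ≤ m) (hn : r ≤ n) :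
    Nat.card {t // ∃ a c, t = (gbGen m n r d hd hm hn).ix (Sum.inr a) (Sum.inr c)}
      = (m - d) * (n - d) := by
  have h4 : Nat.card {t // ∃ a c, t = (gbGen m n r d hd hm hn).ix (Sum.inr a) (Sum.inr c)}
      = Nat.card ((Fin (r - d) ⊕ Fin (m - r)) × (Fin (r - d) ⊕ Fin (n - r))) := by
    symm
    refine Nat.card_eq_of_bijective (fun q => ⟨(gbGen m n r d hd hm hn).ix (Sum.inr q.1)
      (Sum.inr q.2), ⟨q.1, q.2, rfl⟩⟩) ⟨?_, ?_⟩
    · rintro ⟨a, b⟩ ⟨a', b'⟩ h
      rw [Subtype.mk.injEq] at h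
      change (eqv m r d hd hm (Sum.inr a), eqv n r d hd hn (Sum.inr b))
        = (eqv m r d hd hm (Sum.inr a'), eqv n r d hd hn (Sum.inr b')) at h
      rw [Prod.mk.injEq, (eqv _ _ _ _ _).injective.eq_iff, (eqv _ _ _ _ _).injective.eq_iff,
        Sum.inr.injEq, Sum.inr.injEq] at h
      exact Prod.ext h.1 h.2
    · rintro ⟨t, a, b, h⟩
      exact ⟨(a, b), Subtype.ext h.symm⟩
  rw [h4, Nat.card_prod, Nat.card_eq_fintype_card, Nat.card_eq_fintype_card,
    Fintype.card_sum, Fintype.card_sum, Fintype.card_fin, Fintype.card_fin, Fintype.card_fin]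
  congr 1 <;> omega

theorem card_gbSym (n r d : ℕ) (hd : d ≤ r) (hn : r ≤ n) :
    Nat.card {t // ∃ a c, t = (gbSym n r d hd hn).ix (Sum.inr a) (Sum.inr c)}
      = (n - d) * (n - d + 1) / 2 := by
  have h4 : Nat.card {t // ∃ a c, t = (gbSym n r d hd hn).ix (Sum.inr a) (Sum.inr c)}
      = Nat.card (Sym2 (Fin (r - d) ⊕ Fin (n - r))) := by
    symm
    refine Nat.card_eq_of_bijective (fun q => ⟨Sym2.map (fun a =>
      eqv n r d hd hn (Sum.inr a)) q, ?_⟩) ⟨?_, ?_⟩
    · induction q using Sym2.ind with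
      | _ x y => exact ⟨x, y, rfl⟩
    · intro q q' h
      have h' := congrArg Subtype.val h
      exact Sym2.map.injective ((eqv _ _ _ _ _).injective.comp Sum.inr_injective) h'
    · rintro ⟨t, a, b, h⟩
      exact ⟨s(a, b), Subtype.ext h.symm⟩
  rw [h4, Nat.card_eq_fintype_card, Sym2.card, Fintype.card_sum, Fintype.card_fin,
    Fintype.card_fin]
  have h5 : r - d + (n - r) = n - d := by omega
  rw [h5, Nat.choose_two_right, Nat.add_sub_cancel, mul_comm]

namespace Blk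

theorem rk_le_rows (S : Blk) : S.rk ≤ S.rows := min_le_left _ _

theorem rk_le_cols (S : Blk) : S.rk ≤ S.cols := min_le_right _ _

/-- the data of a block -/
noncomputable def gb : (S : Blk) → (d : ℕ) → d ≤ S.rk →
    Gb (Fin d) (Fin (S.rk - d) ⊕ Fin (S.rows - S.rk)) (Fin (S.rk - d) ⊕ Fin (S.cols - S.rk))
      (Fin (S.rk - d)) S.Var
  | gen m n, d, hd => gbGen m n (gen m n).rk d hd (rk_le_rows _) (rk_le_cols _)
  | sym n, d, hd => gbSym n (sym n).rk d hd (rk_le_rows _)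

theorem gb_ix (S : Blk) (d : ℕ) (hd : d ≤ S.rk)
    (x : Fin d ⊕ (Fin (S.rk - d) ⊕ Fin (S.rows - S.rk)))
    (y : Fin d ⊕ (Fin (S.rk - d) ⊕ Fin (S.cols - S.rk))) :
    (S.gb d hd).ix x y = S.place (eqv S.rows S.rk d hd S.rk_le_rows x)
      (eqv S.cols S.rk d hd S.rk_le_cols y) := by
  cases S <;> rfl

theorem card_gb (S : Blk) (d : ℕ) (hd : d ≤ S.rk) :
    Nat.card {t // ∃ r c, t = (S.gb d hd).ix (Sum.inr r) (Sum.inr c)} = S.codim d := by
  cases S with
  | gen m n => exact card_gbGen m n _ d hd _ _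
  | sym n => exact card_gbSym n _ d hd _

end Blk

end Pool.Agent.J6H7.BD
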